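import Pool.Agent.Lib.H25Y.SymY
import Pool.Agent.Lib.H76Y.A1
import Pool.Agent.Lib.H76Q.BL1

/-!
# BLN: blocks and ideals without an invariant form
-/

set_option autoImplicit false
set_option linter.unusedSectionVars false
namespace Pool.Agent.H25Y
open Module Pool.Agent.H76P

section config

variable {κ : Type*} [Fintype κ] [DecidableEq κ] {V : Type*} [AddCommGroup V] [Module ℚ V]

/-- A splitting with two values and mean zero takes opposite values. -/
theorem two_opp [Nonempty κ] {pt : κ → V} (hinj : Function.Injective pt) (h0 : ∑ k, pt k = 0)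
    {q : Module.End ℚ V} (hq : Spl pt q) (h2 : cnt pt q = 2) (a : κ) :
    ∃ b, q (pt b) = -q (pt a) := by
  classical
  have h3 : ((Finset.univ : Finset κ).image fun a => q (pt a)).card = 2 := by
    unfold cnt at h2
    exact h2
  obtain ⟨x, y, hxy, himg⟩ := Finset.card_eq_two.1 h3
  have hmem : ∀ a, q (pt a) = x ∨ q (pt a) = y := by
    intro a
    have : q (pt a) ∈ ((Finset.univ : Finset κ).image fun a => q (pt a)) :=
      Finset.mem_image_of_mem _ (Finset.mem_univ a)
    rw [himg, Finset.mem_insert, Finset.mem_singleton] at this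
    exact this
  have hx : ∃ a, q (pt a) = x := by
    have : x ∈ ((Finset.univ : Finset κ).image fun a => q (pt a)) := by
      rw [himg]
      exact Finset.mem_insert_self _ _
    obtain ⟨a, -, ha⟩ := Finset.mem_image.1 this
    exact ⟨a, ha⟩
  have hy : ∃ a, q (pt a) = y := by
    have : y ∈ ((Finset.univ : Finset κ).image fun a => q (pt a)) := by
      rw [himg]
      exact Finset.mem_insert_of_mem (Finset.mem_singleton_self _)
    obtain ⟨a, -, ha⟩ := Finset.mem_image.1 this
    exact ⟨a, ha⟩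
  have hqq : ∀ u, q (q u) = q u := fun u => LinearMap.congr_fun hq.1 u
  have hoth : ∀ a, ∃ b, q (pt b) = (x + y) - q (pt a) := by
    intro a
    rcases hmem a with h | h
    · obtain ⟨b, hb⟩ := hy
      exact ⟨b, by rw [h, hb]; abel⟩
    · obtain ⟨b, hb⟩ := hx
      exact ⟨b, by rw [h, hb]; abel⟩
  have hτ : ∀ a, ∃ c, pt c = pt a + ((x + y) - q (pt a) - q (pt a)) := by
    intro a
    obtain ⟨b, hb⟩ := hoth a
    obtain ⟨c, hc⟩ := hq.2 a b
    exact ⟨c, by rw [hc, map_sub, hb]⟩
  choose τ hτ using hτ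
  have hqx : q (x + y) = x + y := by
    obtain ⟨a, ha⟩ := hx
    obtain ⟨b, hb⟩ := hy
    rw [map_add, ← ha, ← hb, hqq, hqq]
  have hqτ : ∀ a, q (pt (τ a)) = (x + y) - q (pt a) := by
    intro a
    rw [hτ, map_add, map_sub, map_sub, hqx, hqq]
    abel
  have hττ : Function.Involutive τ := by
    intro a
    apply hinj
    rw [hτ (τ a), hqτ, hτ a]
    abel
  have hsum : ∑ a, q (pt a) = 0 := by rw [← map_sum, h0, map_zero]
  have hsum' : ∑ a, q (pt (τ a)) = 0 := by
    rw [← hsum]
    exact Fintype.sum_bijective τ hττ.bijective _ _ fun a => rfl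
  have h4 : (Fintype.card κ : ℚ) • (x + y) = 0 := by
    have h5 : ∑ a, q (pt (τ a)) = ∑ a : κ, ((x + y) - q (pt a)) :=
      Finset.sum_congr rfl fun a _ => hqτ a
    rw [hsum', Finset.sum_sub_distrib, hsum, sub_zero, Finset.sum_const, Finset.card_univ] at h5
    rw [h5, Nat.cast_smul_eq_nsmul]
  have h6 : x + y = 0 := by
    rcases smul_eq_zero.1 h4 with h | h
    · exact absurd h (by exact_mod_cast Fintype.card_ne_zero)
    · exact h
  obtain ⟨b, hb⟩ := hoth a
  exact ⟨b, by rw [hb, h6, zero_sub]⟩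

/-- If all atoms have two values, the configuration is symmetric. -/
theorem sym_of_two [Nonempty κ] {pt : κ → V} (hs : Spans pt) (hinj : Function.Injective pt)
    (h0 : ∑ k, pt k = 0) (h2 : ∀ q, Atom pt q → cnt pt q = 2) (k : κ) : ∃ k', pt k' = -pt k := by
  classical
  obtain ⟨s, hsm, hsum⟩ := atoms_sum hs
  have key : ∀ t : Finset (Module.End ℚ V), t ⊆ s → ∃ c, pt c = pt k - (2 : ℚ) • ∑ q ∈ t, q (pt k) := by
    intro t
    induction t using Finset.induction_on with
    | empty => exact fun _ => ⟨k, by simp⟩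
    | insert q t hqt ih =>
      intro hts
      obtain ⟨c, hc⟩ := ih fun r hr => hts (Finset.mem_insert_of_mem hr)
      have hq : Atom pt q := (hsm q).1 (hts (Finset.mem_insert_self q t))
      obtain ⟨b, hb⟩ := two_opp hinj h0 hq.1 (h2 q hq) k
      obtain ⟨c', hc'⟩ := hq.1.2 c b
      refine ⟨c', ?_⟩
      have h3 : q (pt c) = q (pt k) := by
        rw [hc, map_sub, map_smul, map_sum]
        have h4 : ∑ r ∈ t, q (r (pt k)) = 0 := by
          refine Finset.sum_eq_zero fun r hr => ?_
          have hr' : Atom pt r := (hsm r).1 (hts (Finset.mem_insert_of_mem hr))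
          have h5 := Atom.orth hs hq hr' fun h => hqt (h ▸ hr)
          exact LinearMap.congr_fun h5 (pt k)
        rw [h4, smul_zero, sub_zero]
      rw [hc', map_sub, hb, h3, hc, Finset.sum_insert hqt]
      module
  obtain ⟨c, hc⟩ := key s (Finset.Subset.refl s)
  refine ⟨c, ?_⟩
  have h3 : ∑ q ∈ s, q (pt k) = pt k := by
    have := LinearMap.congr_fun hsum (pt k)
    rwa [LinearMap.sum_apply, Module.End.one_apply] at this
  rw [hc, h3]
  module

/-- In eight points, two atoms with two values force all atoms to have two values. -/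
theorem all_two [Nonempty κ] {pt : κ → V} (hs : Spans pt) (hinj : Function.Injective pt)
    (h8 : Fintype.card κ = 8) {q q' : Module.End ℚ V} (hq : Atom pt q) (hq' : Atom pt q')
    (hne : q ≠ q') (h1 : cnt pt q = 2) (h2 : cnt pt q' = 2) : ∀ r, Atom pt r → cnt pt r = 2 := by
  classical
  obtain ⟨s, hsm, hsum⟩ := atoms_sum hs
  have hprod := card_prod hs hinj (fun r hr => (hsm r).1 hr) hsum
  rw [h8, ← Finset.mul_prod_erase s _ ((hsm q).2 hq), h1,
    ← Finset.mul_prod_erase (s.erase q) _ (Finset.mem_erase.2 ⟨hne.symm, (hsm q').2 hq'⟩), h2] at hprod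
  intro r hr
  by_cases hrq : r = q
  · rw [hrq, h1]
  by_cases hrq' : r = q'
  · rw [hrq', h2]
  have hrm : r ∈ (s.erase q).erase q' :=
    Finset.mem_erase.2 ⟨hrq', Finset.mem_erase.2 ⟨hrq, (hsm r).2 hr⟩⟩
  have hdvd : cnt pt r ∣ 2 := by
    have h3 := Finset.dvd_prod_of_mem (fun r => cnt pt r) hrm
    have h4 : ∏ r ∈ (s.erase q).erase q', cnt pt r = 2 := by omega
    rwa [h4] at h3
  have hge : 2 ≤ cnt pt r := by
    obtain ⟨a, b, hab⟩ := cnt_ne_one hs hr.2.1
    unfold cnt
    have h3 : ({r (pt a), r (pt b)} : Finset V) ⊆ Finset.univ.image fun a => r (pt a) := by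
      intro x hx
      rw [Finset.mem_insert, Finset.mem_singleton] at hx
      rcases hx with rfl | rfl
      · exact Finset.mem_image_of_mem _ (Finset.mem_univ a)
      · exact Finset.mem_image_of_mem _ (Finset.mem_univ b)
    have h4 := Finset.card_le_card h3
    rw [Finset.card_pair hab] at h4
    exact h4
  have hle := Nat.le_of_dvd (by norm_num) hdvd
  omega

end config

end Pool.Agent.H25Y

namespace Pool.Agent.H76Y
open Module Matrix Pool.Agent.H53Toric Pool.Agent.H76P
open Pool.Agent.H76T (IsIdeal Fam)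
open Pool.Agent.H76Q (IsBlock Comp InP cz ptS dualMap_mul dualMap_zero spl_eq_sum dualMap_inj)

variable {κ : Type*} {K : Type*} [Field K] [CharZero K] [Fintype κ] [DecidableEq κ]
  {L : Submodule K (Module.End K (κ → K))} [IsAlgClosed K] [Nonempty κ]
  {Y : Submodule ℚ (κ → ℚ)} {P : Module.End ℚ Y}

theorem sum_pt (h : TM L) : ∑ k, pt L k = 0 := by
  ext f
  rw [LinearMap.sum_apply, LinearMap.zero_apply]
  exact Yo_sum h.cmp f.2

/-- Dimension eight: a simple ideal acts on one atom. -/
theorem eight_atomN (h : TM L) (hns : NsL L) {m : ℕ} {I : Fin m → Submodule K (Module.End K (κ → K))}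
    (hF : Fam L I) {j : Fin m} {P : Module.End ℚ (Yo L)}
    (hP1 : ∀ f, dq (P f : κ → ℚ) ∈ I j)
    (hP2 : ∀ f : Yo L, dq (f : κ → ℚ) ∈ I j → P f = f) (hPS : Spl (pt L) P.dualMap)
    (h8 : Fintype.card κ = 8)
    {q : Module.End ℚ (Module.Dual ℚ (Yo L))} (hq : Atom (pt L) q) (hqP : q * P.dualMap = q) :
    q = P.dualMap := by
  by_contra hne
  have hs : Spans (pt L) := pt_spans h.cmp
  have h1 := h.atom_two hF hP1 hP2 hPS hq hqP hne
  -- a second atom
  have hS2 : Spl (pt L) ((1 - q) * P.dualMap) := Spl.mul hs hq.1.compl hPS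
  have h0 : (1 - q) * P.dualMap ≠ 0 := by
    intro h0
    apply hne
    rw [sub_mul, one_mul, sub_eq_zero, hqP] at h0
    exact h0.symm
  obtain ⟨q', hq', hq'P⟩ := exists_atom hs hS2 h0
  have hq'1 : q' * P.dualMap = q' := by
    nth_rw 1 [← hq'P]
    rw [mul_assoc, mul_assoc, hPS.1, hq'P]
  have hq'q : q' * q = 0 := by
    have h2 : q' * (1 - q) = q' := by
      nth_rw 1 [← hq'P]
      have hc : (1 - q) * P.dualMap = P.dualMap * (1 - q) := Spl.comm hs hq.1.compl hPS
      rw [hc, ← mul_assoc, mul_assoc (q' * P.dualMap), hq.1.compl.1, mul_assoc, ← hc, hq'P]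
    rw [mul_sub, mul_one, sub_eq_self] at h2
    exact h2
  have hneq : q ≠ q' := by
    rintro rfl
    rw [hq.1.1] at hq'q
    exact hq.2.1 hq'q
  have hq'ne : q' ≠ P.dualMap := by
    rintro h3
    rw [h3] at hq'q
    have h4 : q = 0 := by rw [← hqP, Spl.comm hs hq.1 hPS, hq'q]
    exact hq.2.1 h4
  have h2 := h.atom_two hF hP1 hP2 hPS hq' hq'1 hq'ne
  have h3 := H25Y.all_two hs h.pt_inj h8 hq hq' hneq h1 h2
  refine h.not_ns (fun k => ?_) hns
  obtain ⟨k', hk'⟩ := H25Y.sym_of_two hs h.pt_inj (sum_pt h) h3 k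
  refine ⟨k', fun f hf => ?_⟩
  have := LinearMap.congr_fun hk' ⟨f, hf⟩
  exact this

/-- Each simple ideal acts on one side of a block. -/
theorem compN (hP : IsBlock P) (h : TM L) (hns : NsL L) (hY : Yo L = Y) : Comp L P := by
  classical
  subst hY
  have hs : Spans (pt L) := pt_spans h.cmp
  intro m I hF j
  obtain ⟨Pj, hP1, hP2, -, hPS⟩ := exists_proj h.cmp hF j
  -- the two possibilities
  have caseA : Pj.dualMap * P.dualMap = Pj.dualMap → InP P (I j) := by
    intro h1 f hf hfj k k' hk
    have h2 : P * Pj = Pj := dualMap_inj (by rw [dualMap_mul]; exact h1)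
    have h3 : P ⟨f, hf⟩ = ⟨f, hf⟩ := by
      have h4 := congrArg (fun T : Module.End ℚ (Yo L) => T ⟨f, hf⟩) h2
      simp only [Module.End.mul_apply] at h4
      rwa [hP2 ⟨f, hf⟩ hfj] at h4
    have h5 := hk ⟨f, hf⟩
    rwa [h3] at h5
  have caseB : Pj.dualMap * P.dualMap = 0 → InP (1 - P) (I j) := by
    intro h1 f hf hfj k k' hk
    have h2 : P * Pj = 0 := dualMap_inj (by rw [dualMap_mul, dualMap_zero]; exact h1)
    have h3 : P ⟨f, hf⟩ = 0 := by
      have h4 := congrArg (fun T : Module.End ℚ (Yo L) => T ⟨f, hf⟩) h2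
      simp only [Module.End.mul_apply] at h4
      rwa [hP2 ⟨f, hf⟩ hfj] at h4
    have h5 := hk ⟨f, hf⟩
    rwa [LinearMap.sub_apply, Module.End.one_apply, h3, sub_zero] at h5
  rcases hP with ⟨h8, hA⟩ | ⟨-, hA, hc⟩ | ⟨-, hS, -, hat⟩
  · rcases hA.le_or hs hPS with h1 | h1
    · left
      have h2 := eight_atomN h hns hF hP1 hP2 hPS h8 hA h1
      refine caseA ?_
      rw [h2]
      exact hPS.1
    · right
      exact caseB (by rw [← Spl.comm hs hA.1 hPS]; exact h1)
  · rcases hA.le_or hs hPS with h1 | h1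
    · left
      have h2 : P.dualMap = Pj.dualMap := by
        by_contra hne
        exact hc (h.atom_two hF hP1 hP2 hPS hA h1 hne)
      refine caseA ?_
      rw [h2]
      exact hPS.1
    · right
      exact caseB (by rw [← Spl.comm hs hA.1 hPS]; exact h1)
  · by_cases hj : Atom (pt L) Pj.dualMap
    · rcases hj.le_or hs hS with h1 | h1
      · exact Or.inl (caseA h1)
      · exact Or.inr (caseB h1)
    · left
      refine caseA ?_
      obtain ⟨s, hsm, hsum⟩ := atoms_sum hs
      have h1 := spl_eq_sum hs hPS s hsm hsum (fun q => q * Pj.dualMap = q) fun q _ => Iff.rfl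
      calc Pj.dualMap * P.dualMap = (∑ q ∈ s.filter (fun q => q * Pj.dualMap = q), q) * P.dualMap := by rw [← h1]
        _ = ∑ q ∈ s.filter (fun q => q * Pj.dualMap = q), q := by
            rw [Finset.sum_mul]
            refine Finset.sum_congr rfl fun q hq => ?_
            rw [Finset.mem_filter, hsm] at hq
            refine (hat q hq.1).2 (h.atom_two hF hP1 hP2 hPS hq.1 hq.2 ?_)
            rintro rfl
            exact hj hq.1
        _ = Pj.dualMap := h1.symm

end Pool.Agent.H76Y
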