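import Pool.Agent.Lib.H76P.T0

/-!
# A symmetric configuration of weights gives an invariant bilinear form

`L` is an irreducible Lie algebra of operators of `K ^ κ`, of trace zero, whose rational diagonal
elements separate the points of `κ` and are the elements of `Yo L`.  If the set of the weights is
symmetric, there is a nonzero invariant bilinear form.
-/

set_option autoImplicit false
set_option linter.unusedSectionVars false
namespace Pool.Agent.H25Y
open Module Matrix Pool.Agent.H53Toric
open Pool.Agent.H76P (dg dq Hs Yo dg_apply dg_mul dg_add dg_smul dg_one dg_inj)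

section schur

variable {K : Type*} [Field K] {V : Type*} [AddCommGroup V] [Module K V]

/-- Schur's lemma. -/
theorem scalar_of_comm [IsAlgClosed K] [FiniteDimensional K V] [Nontrivial V]
    {g : Submodule K (Module.End K V)} (hirr : Irr g) {Z : Module.End K V}
    (hZ : ∀ X ∈ g, Z * X = X * Z) : ∃ c : K, Z = c • 1 := by
  obtain ⟨c, hc⟩ := Module.End.exists_eigenvalue Z
  refine ⟨c, ?_⟩
  have hst : ∀ X ∈ g, ∀ w ∈ Module.End.eigenspace Z c, X w ∈ Module.End.eigenspace Z c := by
    intro X hX w hw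
    rw [Module.End.mem_eigenspace_iff] at hw ⊢
    have h1 := LinearMap.congr_fun (hZ X hX) w
    rw [Module.End.mul_apply, Module.End.mul_apply, hw, map_smul] at h1
    exact h1
  rcases hirr _ hst with h | h
  · exact absurd h hc
  · refine LinearMap.ext fun v => ?_
    have h1 : v ∈ Module.End.eigenspace Z c := by rw [h]; exact Submodule.mem_top
    rw [Module.End.mem_eigenspace_iff] at h1
    rw [h1, LinearMap.smul_apply, Module.End.one_apply]

/-- The normaliser of an irreducible Lie algebra of trace zero. -/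
theorem norm_mem [IsAlgClosed K] [CharZero K] [FiniteDimensional K V] [Nontrivial V]
    {g : Submodule K (Module.End K V)} (hg : IsLie g) (hirr : Irr g)
    (htr : ∀ X ∈ g, LinearMap.trace K V X = 0) {Z : Module.End K V}
    (hZ : ∀ X ∈ g, Z * X - X * Z ∈ g) (hZt : LinearMap.trace K V Z = 0) : Z ∈ g := by
  let f : g →ₗ[K] K := (LinearMap.trace K V) ∘ₗ (LinearMap.mulLeft K Z) ∘ₗ g.subtype
  obtain ⟨Y, hY, hf⟩ := exists_trace_repr hg hirr htr f
  have hf' : ∀ X ∈ g, LinearMap.trace K V ((Z - Y) * X) = 0 := by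
    intro X hX
    have h1 : LinearMap.trace K V (Z * X) = LinearMap.trace K V (Y * X) := hf ⟨X, hX⟩
    rw [sub_mul, map_sub, h1, sub_self]
  have hc : ∀ X ∈ g, (Z - Y) * X = X * (Z - Y) := by
    intro X hX
    rw [← sub_eq_zero]
    have hm : (Z - Y) * X - X * (Z - Y) ∈ g := by
      have e : (Z - Y) * X - X * (Z - Y) = (Z * X - X * Z) - (Y * X - X * Y) := by noncomm_ring
      rw [e]
      exact g.sub_mem (hZ X hX) (hg Y hY X hX)
    refine trace_nondeg hg hirr htr hm fun X' hX' => ?_
    have h1 := hf' _ (hg X hX X' hX')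
    have e1 : (Z - Y) * (X * X' - X' * X) = (Z - Y) * X * X' - (Z - Y) * X' * X := by noncomm_ring
    have e2 : ((Z - Y) * X - X * (Z - Y)) * X' = (Z - Y) * X * X' - X * ((Z - Y) * X') := by noncomm_ring
    rw [e1, map_sub] at h1
    rw [e2, map_sub, LinearMap.trace_mul_comm K X ((Z - Y) * X')]
    exact h1
  obtain ⟨c, hcc⟩ := scalar_of_comm hirr hc
  have h2 : LinearMap.trace K V (Z - Y) = 0 := by rw [map_sub, hZt, htr Y hY, sub_zero]
  rw [hcc, map_smul, LinearMap.trace_one, smul_eq_mul] at h2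
  have h3 : (finrank K V : K) ≠ 0 := by
    rw [Nat.cast_ne_zero]
    exact (Module.finrank_pos (R := K) (M := V)).ne'
  have h4 : c = 0 := (mul_eq_zero.1 h2).resolve_right h3
  rw [h4, zero_smul] at hcc
  rw [sub_eq_zero.1 hcc]
  exact hY

/-- The graph of an isomorphism with the dual gives an invariant form. -/
theorem form_of_graph {g : Submodule K (Module.End K V)} (hirr : Irr g)
    (U : Submodule K (V × Module.Dual K V))
    (hU : ∀ X ∈ g, ∀ u ∈ U, (X u.1, -(u.2 ∘ₗ X)) ∈ U)
    {e : V} (he : e ≠ 0) (he' : ∀ φ : Module.Dual K V, (0, φ) ∈ U → φ e = 0)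
    {x : V × Module.Dual K V} (hx : x ∈ U) (hx1 : x.1 ≠ 0) (hx2 : x.2 ≠ 0) :
    ∃ b : V →ₗ[K] V →ₗ[K] K, b ≠ 0 ∧ ∀ X ∈ g, ∀ v w, b (X v) w + b v (X w) = 0 := by
  -- the second factor meets `U` in zero
  have h0 : ∀ φ : Module.Dual K V, (0, φ) ∈ U → φ = 0 := by
    let N : Submodule K V :=
      { carrier := {v | ∀ φ : Module.Dual K V, (0, φ) ∈ U → φ v = 0}
        add_mem' := by
          intro a b ha hb φ hφ
          rw [map_add, ha φ hφ, hb φ hφ, add_zero]
        zero_mem' := fun φ _ => map_zero φ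
        smul_mem' := by
          intro c a ha φ hφ
          rw [map_smul, ha φ hφ, smul_zero] }
    have hst : ∀ X ∈ g, ∀ w ∈ N, X w ∈ N := by
      intro X hX w hw φ hφ
      have h1 := hU X hX _ hφ
      rw [map_zero] at h1
      have h2 := hw _ h1
      rw [LinearMap.neg_apply, LinearMap.comp_apply, neg_eq_zero] at h2
      exact h2
    rcases hirr N hst with h | h
    · exfalso
      apply he
      have : e ∈ N := he'
      rw [h, Submodule.mem_bot] at this
      exact this
    · intro φ hφ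
      refine LinearMap.ext fun v => ?_
      have : v ∈ N := by rw [h]; exact Submodule.mem_top
      exact this φ hφ
  -- the first projection is onto
  have h1 : ∀ v : V, ∃ φ : Module.Dual K V, (v, φ) ∈ U := by
    have hst : ∀ X ∈ g, ∀ w ∈ U.map (LinearMap.fst K V (Module.Dual K V)),
        X w ∈ U.map (LinearMap.fst K V (Module.Dual K V)) := by
      intro X hX w hw
      obtain ⟨u, hu, rfl⟩ := hw
      exact ⟨_, hU X hX u hu, rfl⟩
    rcases hirr _ hst with h | h
    · exfalso
      apply hx1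
      have : x.1 ∈ U.map (LinearMap.fst K V (Module.Dual K V)) := Submodule.mem_map_of_mem hx
      rw [h, Submodule.mem_bot] at this
      exact this
    · intro v
      have : v ∈ U.map (LinearMap.fst K V (Module.Dual K V)) := by rw [h]; exact Submodule.mem_top
      obtain ⟨u, hu, rfl⟩ := this
      exact ⟨u.2, hu⟩
  choose θ hθ using h1
  have huniq : ∀ v φ, (v, φ) ∈ U → φ = θ v := by
    intro v φ h
    have h2 := U.sub_mem h (hθ v)
    rw [Prod.mk_sub_mk, sub_self] at h2
    exact sub_eq_zero.1 (h0 _ h2)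
  refine ⟨{ toFun := θ, map_add' := ?_, map_smul' := ?_ }, ?_, ?_⟩
  · intro v w
    refine (huniq _ _ ?_).symm
    have := U.add_mem (hθ v) (hθ w)
    rwa [Prod.mk_add_mk] at this
  · intro c v
    refine (huniq _ _ ?_).symm
    have := U.smul_mem c (hθ v)
    rwa [Prod.smul_mk] at this
  · intro h
    apply hx2
    have h2 := LinearMap.congr_fun h x.1
    have h3 : x.2 = θ x.1 := huniq _ _ hx
    rw [h3]
    exact h2
  · intro X hX v w
    have h2 := huniq _ _ (hU X hX _ (hθ v))
    change θ (X v) w + θ v (X w) = 0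
    rw [← h2]
    simp

end schur

variable {κ : Type*} {K : Type*} [Field K] [CharZero K] [Fintype κ] [DecidableEq κ]
  {L : Submodule K (Module.End K (κ → K))}

theorem dg_entry_left (g : κ → K) (X : Module.End K (κ → K)) (v : κ → K) (a : κ) :
    (dg g * X) v a = g a * X v a := rfl

theorem dg_single (g : κ → K) (b : κ) : dg g (Pi.single b (1 : K)) = g b • Pi.single b (1 : K) := by
  funext c
  rw [dg_apply, Pi.smul_apply, smul_eq_mul]
  by_cases hc : c = b
  · rw [hc]
  · rw [Pi.single_eq_of_ne hc, mul_zero, mul_zero]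

theorem ext_entry {X Y : Module.End K (κ → K)}
    (h : ∀ a b, X (Pi.single b 1) a = Y (Pi.single b 1) a) : X = Y := by
  refine LinearMap.pi_ext' fun b => LinearMap.ext_ring (funext fun a => ?_)
  exact h a b

theorem exists_poly {K : Type*} [Field K] [DecidableEq K] (s : Finset K) (h : K → K) :
    ∃ p : Polynomial K, ∀ c ∈ s, p.eval c = h c :=
  ⟨Lagrange.interpolate s id h, fun _ hc =>
    Lagrange.eval_interpolate_at_node (v := id) h Function.injective_id.injOn hc⟩

/-- Functions of the differences of a diagonal element act on `L`. -/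
theorem fun_mem (hL : IsLie L) {g : κ → K} (hg : dg g ∈ L) (h : K → K)
    {X : Module.End K (κ → K)} (hX : X ∈ L) :
    ∃ Y ∈ L, ∀ a b, Y (Pi.single b 1) a = h (g a - g b) * X (Pi.single b 1) a := by
  classical
  have key : ∀ p : Polynomial K, ∃ Y ∈ L, ∀ a b, Y (Pi.single b 1) a =
      p.eval (g a - g b) * X (Pi.single b 1) a := by
    intro p
    induction p using Polynomial.induction_on' with
    | add p q hp hq =>
      obtain ⟨Y, hY, h1⟩ := hp
      obtain ⟨Z, hZ, h2⟩ := hq
      refine ⟨Y + Z, L.add_mem hY hZ, fun a b => ?_⟩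
      rw [LinearMap.add_apply, Pi.add_apply, h1, h2, Polynomial.eval_add]
      ring
    | monomial n c =>
      have : ∀ n : ℕ, ∃ Y ∈ L, ∀ a b, Y (Pi.single b 1) a = (g a - g b) ^ n * X (Pi.single b 1) a := by
        intro n
        induction n with
        | zero => exact ⟨X, hX, fun a b => by rw [pow_zero, one_mul]⟩
        | succ n ih =>
          obtain ⟨Y, hY, h1⟩ := ih
          refine ⟨dg g * Y - Y * dg g, hL _ hg _ hY, fun a b => ?_⟩
          rw [LinearMap.sub_apply, Pi.sub_apply, dg_entry_left, Module.End.mul_apply, dg_single,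
            map_smul, Pi.smul_apply, h1, smul_eq_mul]
          ring
      obtain ⟨Y, hY, h1⟩ := this n
      refine ⟨c • Y, L.smul_mem c hY, fun a b => ?_⟩
      rw [LinearMap.smul_apply, Pi.smul_apply, h1, Polynomial.eval_monomial, smul_eq_mul]
      ring
  obtain ⟨p, hp⟩ := exists_poly (Finset.univ.image (fun q : κ × κ => g q.1 - g q.2)) h
  obtain ⟨Y, hY, h1⟩ := key p
  refine ⟨Y, hY, fun a b => ?_⟩
  rw [h1, hp _ (Finset.mem_image.2 ⟨(a, b), Finset.mem_univ _, rfl⟩)]

variable [IsAlgClosed K] [Nonempty κ]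

theorem trace_dg (g : κ → K) : LinearMap.trace K (κ → K) (dg g) = ∑ a, g a := by
  have h : (dg g : Module.End K (κ → K)) = Matrix.toLin' (Matrix.diagonal g) := by
    refine LinearMap.ext fun v => funext fun a => ?_
    rw [dg_apply, Matrix.toLin'_apply, Matrix.mulVec_diagonal]
  rw [h, Matrix.trace_toLin'_eq, Matrix.trace_diagonal]

/-- The replicas of a diagonal element of `L` are in `L`. -/
theorem replica (hL : IsLie L) (hirr : Irr L) (htr : ∀ X ∈ L, LinearMap.trace K (κ → K) X = 0)
    {g : κ → K} (hg : dg g ∈ L) (φ : K →ₗ[ℚ] ℚ) : (dq (fun a => φ (g a)) : Module.End K (κ → K)) ∈ L := by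
  refine norm_mem hL hirr htr (fun X hX => ?_) ?_
  · obtain ⟨Y, hY, h1⟩ := fun_mem hL hg (fun c => ((φ c : ℚ) : K)) hX
    have e : (dq (fun a => φ (g a)) : Module.End K (κ → K)) * X - X * dq (fun a => φ (g a)) = Y := by
      refine ext_entry fun a b => ?_
      unfold dq
      rw [h1, LinearMap.sub_apply, Pi.sub_apply, dg_entry_left, Module.End.mul_apply, dg_single,
        map_smul, Pi.smul_apply, smul_eq_mul, map_sub]
      push_cast
      ring
    rw [e]
    exact hY
  · have h1 := htr _ hg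
    unfold dq
    rw [trace_dg] at h1 ⊢
    have h2 : φ (∑ a, g a) = 0 := by rw [h1, map_zero]
    rw [map_sum] at h2
    have h3 : ((∑ a, φ (g a) : ℚ) : K) = 0 := by rw [h2, Rat.cast_zero]
    rw [← h3]
    push_cast
    rfl

/-- The diagonal elements of `L` are symmetric if the rational ones are. -/
theorem sym_diag (hL : IsLie L) (hirr : Irr L) (htr : ∀ X ∈ L, LinearMap.trace K (κ → K) X = 0)
    (hdiag : ∀ f : κ → ℚ, dq f ∈ L → f ∈ Yo L) {k k' : κ} (hk : ∀ f ∈ Yo L, f k' = -f k)
    {g : κ → K} (hg : dg g ∈ L) : g k' = -g k := by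
  rw [← add_eq_zero_iff_eq_neg, ← Module.forall_dual_apply_eq_zero_iff ℚ]
  intro φ
  have h1 : φ (g k') = -φ (g k) := hk _ (hdiag _ (replica hL hirr htr hg φ))
  rw [map_add, h1]
  ring

theorem exists_generic {κ : Type*} [Finite κ] {Y : Submodule ℚ (κ → ℚ)}
    (hsep : ∀ a b : κ, a ≠ b → ∃ f ∈ Y, f a ≠ f b) : ∃ f ∈ Y, Function.Injective f := by
  classical
  by_contra hcon
  push Not at hcon
  let p : {q : κ × κ // q.1 ≠ q.2} → Submodule ℚ Y := fun q =>
    LinearMap.ker (((LinearMap.proj q.1.1 : (κ → ℚ) →ₗ[ℚ] ℚ) - LinearMap.proj q.1.2) ∘ₗ Y.subtype)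
  have hcov : ⋃ i, (p i : Set Y) = Set.univ := by
    rw [Set.eq_univ_iff_forall]
    intro f
    have h1 := hcon f.1 f.2
    rw [Function.Injective] at h1
    push Not at h1
    obtain ⟨a, b, hab, hne⟩ := h1
    refine Set.mem_iUnion.2 ⟨⟨(a, b), hne⟩, ?_⟩
    show (f : κ → ℚ) a - (f : κ → ℚ) b = 0
    rw [hab, sub_self]
  obtain ⟨⟨⟨a, b⟩, hab⟩, hi⟩ := Subspace.exists_eq_top_of_iUnion_eq_univ hcov
  obtain ⟨f, hf, hne⟩ := hsep a b hab
  apply hne
  have h1 : (⟨f, hf⟩ : Y) ∈ p ⟨(a, b), hab⟩ := by rw [hi]; exact Submodule.mem_top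
  have h2 : f a - f b = 0 := h1
  exact sub_eq_zero.1 h2

theorem dq_mem {f : κ → ℚ} (hf : f ∈ Yo L) : (dq f : Module.End K (κ → K)) ∈ L := by
  unfold Yo at hf
  induction hf using Submodule.span_induction with
  | mem ε hε => exact hε.2
  | zero =>
    have h : (dq (0 : κ → ℚ) : Module.End K (κ → K)) = 0 := by
      refine LinearMap.ext fun v => funext fun a => ?_
      simp [dq, dg_apply]
    rw [h]
    exact L.zero_mem
  | add a b _ _ ha hb =>
    have h : (dq (a + b) : Module.End K (κ → K)) = dq a + dq b := by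
      refine LinearMap.ext fun v => funext fun a => ?_
      simp [dq, dg_apply, add_mul]
    rw [h]
    exact L.add_mem ha hb
  | smul c a _ ha =>
    have h : (dq (c • a) : Module.End K (κ → K)) = (c : K) • dq a := by
      refine LinearMap.ext fun v => funext fun a => ?_
      simp [dq, dg_apply, mul_assoc]
    rw [h]
    exact L.smul_mem _ ha

theorem apply_eq_sum (X : Module.End K (κ → K)) (v : κ → K) (a : κ) :
    X v a = ∑ b, v b * X (Pi.single b 1) a := by
  have h : v = ∑ b, v b • (Pi.single b (1 : K) : κ → K) := by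
    funext c
    simp [Finset.sum_apply, Pi.single_apply]
  conv_lhs => rw [h]
  rw [map_sum, Finset.sum_apply]
  refine Finset.sum_congr rfl fun b _ => ?_
  rw [map_smul, Pi.smul_apply, smul_eq_mul]

/-- If the set of the weights is symmetric, there is a nonzero invariant bilinear form. -/
theorem exists_inv_form (hL : IsLie L) (hirr : Irr L)
    (htr : ∀ X ∈ L, LinearMap.trace K (κ → K) X = 0)
    (hdiag : ∀ f : κ → ℚ, dq f ∈ L → f ∈ Yo L)
    (hsep : ∀ a b : κ, a ≠ b → ∃ f ∈ Yo L, f a ≠ f b)
    (hsym : ∀ k, ∃ k', ∀ f ∈ Yo L, f k' = -f k) :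
    ∃ b : (κ → K) →ₗ[K] (κ → K) →ₗ[K] K, b ≠ 0 ∧
      ∀ X ∈ L, ∀ v w, b (X v) w + b v (X w) = 0 := by
  classical
  obtain ⟨f, hf, hinj⟩ := exists_generic hsep
  obtain ⟨M, -, hM⟩ := Finset.exists_max_image (Finset.univ : Finset κ) f Finset.univ_nonempty
  have hM' : ∀ b, f b ≤ f M := fun b => hM b (Finset.mem_univ b)
  obtain ⟨m, hm⟩ := hsym M
  have hm' : ∀ b, f m ≤ f b := by
    intro b
    obtain ⟨b', hb'⟩ := hsym b
    have h1 := hb' f hf
    have h2 := hm f hf
    have h3 := hM' b'
    linarith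
  have hdf : (dq f : Module.End K (κ → K)) ∈ L := dq_mem hf
  -- the three parts of an element
  have hcast : ∀ a b : κ, ((f a : ℚ) : K) - ((f b : ℚ) : K) = ((f a - f b : ℚ) : K) := by
    intro a b
    push_cast
    rfl
  have split : ∀ Z ∈ L, ∃ Z₁ ∈ L, ∃ g : κ → K, dg g ∈ L ∧ ∃ Z₃ ∈ L, Z = Z₁ + dg g + Z₃ ∧
      (∀ v, Z₁ v M = 0) ∧ Z₁ (Pi.single m 1) = 0 ∧ Z₃ (Pi.single M 1) = 0 ∧ ∀ v, Z₃ v m = 0 := by
    intro Z hZ
    obtain ⟨Z₁, h1, e1⟩ := fun_mem hL hdf
      (fun c => if ∃ q : ℚ, q < 0 ∧ (q : K) = c then 1 else 0) hZ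
    obtain ⟨Z₂, h2, e2⟩ := fun_mem hL hdf (fun c => if c = 0 then 1 else 0) hZ
    obtain ⟨Z₃, h3, e3⟩ := fun_mem hL hdf
      (fun c => if ∃ q : ℚ, 0 < q ∧ (q : K) = c then 1 else 0) hZ
    have c1 : ∀ a b, (∃ q : ℚ, q < 0 ∧ (q : K) = ((f a : ℚ) : K) - ((f b : ℚ) : K)) ↔ f a < f b := by
      intro a b
      rw [hcast]
      constructor
      · rintro ⟨q, hq, h⟩
        have : q = f a - f b := by exact_mod_cast h
        linarith
      · intro h
        exact ⟨f a - f b, by linarith, rfl⟩
    have c3 : ∀ a b, (∃ q : ℚ, 0 < q ∧ (q : K) = ((f a : ℚ) : K) - ((f b : ℚ) : K)) ↔ f b < f a := by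
      intro a b
      rw [hcast]
      constructor
      · rintro ⟨q, hq, h⟩
        have : q = f a - f b := by exact_mod_cast h
        linarith
      · intro h
        exact ⟨f a - f b, by linarith, rfl⟩
    have c2 : ∀ a b, ((f a : ℚ) : K) - ((f b : ℚ) : K) = 0 ↔ a = b := by
      intro a b
      rw [hcast]
      constructor
      · intro h
        have : f a - f b = 0 := by exact_mod_cast h
        exact hinj (sub_eq_zero.1 this)
      · rintro rfl
        rw [sub_self, Rat.cast_zero]
    have e1' : ∀ a b, Z₁ (Pi.single b 1) a = if f a < f b then Z (Pi.single b 1) a else 0 := by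
      intro a b
      rw [e1]
      simp only [c1]
      split_ifs <;> simp
    have e2' : ∀ a b, Z₂ (Pi.single b 1) a = if a = b then Z (Pi.single b 1) a else 0 := by
      intro a b
      rw [e2]
      simp only [c2]
      split_ifs <;> simp
    have e3' : ∀ a b, Z₃ (Pi.single b 1) a = if f b < f a then Z (Pi.single b 1) a else 0 := by
      intro a b
      rw [e3]
      simp only [c3]
      split_ifs <;> simp
    have hZ2 : Z₂ = dg fun a => Z (Pi.single a 1) a := by
      refine ext_entry fun a b => ?_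
      rw [e2', dg_apply]
      by_cases hab : a = b
      · rw [if_pos hab, hab, Pi.single_eq_same, mul_one]
      · rw [if_neg hab, Pi.single_eq_of_ne hab, mul_zero]
    refine ⟨Z₁, h1, fun a => Z (Pi.single a 1) a, hZ2 ▸ h2, Z₃, h3, ?_, ?_, ?_, ?_, ?_⟩
    · rw [← hZ2]
      refine ext_entry fun a b => ?_
      rw [LinearMap.add_apply, LinearMap.add_apply, Pi.add_apply, Pi.add_apply, e1', e2', e3']
      rcases lt_trichotomy (f a) (f b) with h | h | h
      · have hab : a ≠ b := fun h' => by rw [h'] at h; exact lt_irrefl _ h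
        rw [if_pos h, if_neg hab, if_neg (not_lt.2 h.le), add_zero, add_zero]
      · have hab : a = b := hinj h
        rw [if_neg (by rw [h]; exact lt_irrefl _), if_pos hab, if_neg (by rw [h]; exact lt_irrefl _),
          zero_add, add_zero]
      · have hab : a ≠ b := fun h' => by rw [h'] at h; exact lt_irrefl _ h
        rw [if_neg (not_lt.2 h.le), if_neg hab, if_pos h, zero_add, zero_add]
    · intro v
      rw [apply_eq_sum]
      refine Finset.sum_eq_zero fun b _ => ?_
      rw [e1', if_neg (not_lt.2 (hM' b)), mul_zero]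
    · funext a
      rw [e1', if_neg (not_lt.2 (hm' a))]
      rfl
    · funext a
      rw [e3', if_neg (not_lt.2 (hM' a))]
      rfl
    · intro v
      rw [apply_eq_sum]
      refine Finset.sum_eq_zero fun b _ => ?_
      rw [e3', if_neg (not_lt.2 (hm' b)), mul_zero]
  -- the submodule
  let act : Module.End K (κ → K) → (κ → K) × Module.Dual K (κ → K) →
      (κ → K) × Module.Dual K (κ → K) := fun X u => (X u.1, -(u.2 ∘ₗ X))
  have act_add : ∀ X u u', act X (u + u') = act X u + act X u' := by
    intro X u u'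
    refine Prod.ext (map_add X _ _) ?_
    show -((u.2 + u'.2) ∘ₗ X) = -(u.2 ∘ₗ X) + -(u'.2 ∘ₗ X)
    rw [LinearMap.add_comp]
    abel
  have act_smul : ∀ X (c : K) u, act X (c • u) = c • act X u := by
    intro X c u
    refine Prod.ext (map_smul X _ _) ?_
    show -((c • u.2) ∘ₗ X) = c • -(u.2 ∘ₗ X)
    rw [LinearMap.smul_comp, smul_neg]
  have act_comm : ∀ X Y u, act X (act Y u) = act Y (act X u) + act (X * Y - Y * X) u := by
    intro X Y u
    refine Prod.ext ?_ ?_
    · show X (Y u.1) = Y (X u.1) + (X * Y - Y * X) u.1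
      rw [LinearMap.sub_apply, Module.End.mul_apply, Module.End.mul_apply]
      abel
    · show -((-(u.2 ∘ₗ Y)) ∘ₗ X) = -((-(u.2 ∘ₗ X)) ∘ₗ Y) + -(u.2 ∘ₗ (X * Y - Y * X))
      refine LinearMap.ext fun v => ?_
      simp
  let x : (κ → K) × Module.Dual K (κ → K) := (Pi.single M 1, LinearMap.proj m)
  let W : ℕ → Set ((κ → K) × Module.Dual K (κ → K)) := fun n => Nat.rec {x}
    (fun _ S => {u' | ∃ Y ∈ L, (∀ v, Y v M = 0) ∧ Y (Pi.single m 1) = 0 ∧ ∃ u ∈ S, u' = act Y u}) n
  let U : Submodule K ((κ → K) × Module.Dual K (κ → K)) := Submodule.span K (⋃ n, W n)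
  have hWU : ∀ n, ∀ u ∈ W n, u ∈ U := fun n u hu => Submodule.subset_span (Set.mem_iUnion.2 ⟨n, hu⟩)
  have hxU : x ∈ U := hWU 0 x rfl
  have hlow : ∀ Y ∈ L, (∀ v, Y v M = 0) → Y (Pi.single m 1) = 0 → ∀ u ∈ U, act Y u ∈ U := by
    intro Y hY hY1 hY2 u hu
    induction hu using Submodule.span_induction with
    | mem u hu =>
      obtain ⟨n, hn⟩ := Set.mem_iUnion.1 hu
      exact hWU (n + 1) _ ⟨Y, hY, hY1, hY2, u, hn, rfl⟩
    | zero =>
      have : act Y 0 = 0 := by
        have := act_smul Y 0 0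
        rwa [zero_smul, zero_smul] at this
      rw [this]
      exact U.zero_mem
    | add u u' _ _ h h' => rw [act_add]; exact U.add_mem h h'
    | smul c u _ h => rw [act_smul]; exact U.smul_mem c h
  have hbase : ∀ Z ∈ L, act Z x ∈ U := by
    intro Z hZ
    obtain ⟨Z₁, h1, g, hg, Z₃, h3, he, a1, a2, a3, a4⟩ := split Z hZ
    have e1 : act Z x = act Z₁ x + g M • x := by
      refine Prod.ext ?_ ?_
      · show Z (Pi.single M 1) = Z₁ (Pi.single M 1) + g M • Pi.single M 1
        rw [he, LinearMap.add_apply, LinearMap.add_apply, a3, dg_single, add_zero]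
      · refine LinearMap.ext fun v => ?_
        show -(Z v m) = -(Z₁ v m) + g M * v m
        have h4 := sym_diag hL hirr htr hdiag hm hg
        rw [he, LinearMap.add_apply, LinearMap.add_apply, Pi.add_apply, Pi.add_apply, a4, dg_apply, h4]
        ring
    rw [e1]
    exact U.add_mem (hlow Z₁ h1 a1 a2 x hxU) (U.smul_mem _ hxU)
  have hW : ∀ n, ∀ u ∈ W n, ∀ Z ∈ L, act Z u ∈ U := by
    intro n
    induction n with
    | zero =>
      rintro u rfl
      exact hbase
    | succ n ih =>
      rintro _ ⟨Y, hY, hY1, hY2, u, hu, rfl⟩ Z hZ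
      rw [act_comm]
      exact U.add_mem (hlow Y hY hY1 hY2 _ (ih u hu Z hZ)) (ih u hu _ (hL Z hZ Y hY))
  have hU : ∀ X ∈ L, ∀ u ∈ U, act X u ∈ U := by
    intro X hX u hu
    induction hu using Submodule.span_induction with
    | mem u hu =>
      obtain ⟨n, hn⟩ := Set.mem_iUnion.1 hu
      exact hW n u hn X hX
    | zero =>
      have : act X 0 = 0 := by
        have := act_smul X 0 0
        rwa [zero_smul, zero_smul] at this
      rw [this]
      exact U.zero_mem
    | add u u' _ _ h h' => rw [act_add]; exact U.add_mem h h'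
    | smul c u _ h => rw [act_smul]; exact U.smul_mem c h
  have hB : ∀ u ∈ U, u.2 (Pi.single m 1) = u.1 M := by
    intro u hu
    induction hu using Submodule.span_induction with
    | mem u hu =>
      obtain ⟨n, hn⟩ := Set.mem_iUnion.1 hu
      cases n with
      | zero =>
        have : u = x := hn
        rw [this]
        show (Pi.single m (1 : K) : κ → K) m = (Pi.single M (1 : K) : κ → K) M
        rw [Pi.single_eq_same, Pi.single_eq_same]
      | succ n =>
        obtain ⟨Y, hY, hY1, hY2, u', hu', rfl⟩ := hn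
        show -(u'.2 (Y (Pi.single m 1))) = Y u'.1 M
        rw [hY1, hY2, map_zero, neg_zero]
    | zero => simp
    | add u u' _ _ h h' =>
      rw [Prod.fst_add, Prod.snd_add, LinearMap.add_apply, Pi.add_apply, h, h']
    | smul c u _ h =>
      rw [Prod.smul_fst, Prod.smul_snd, LinearMap.smul_apply, Pi.smul_apply, h]
  refine form_of_graph hirr U hU (e := Pi.single m 1) ?_ (fun φ hφ => ?_) hxU ?_ ?_
  · intro h
    have := congrFun h m
    rw [Pi.single_eq_same] at this
    exact one_ne_zero this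
  · have := hB _ hφ
    exact this
  · intro h
    have h1 : (Pi.single M (1 : K) : κ → K) = 0 := h
    have := congrFun h1 M
    rw [Pi.single_eq_same] at this
    exact one_ne_zero this
  · intro h
    have h1 : (LinearMap.proj m : (κ → K) →ₗ[K] K) = 0 := h
    have := LinearMap.congr_fun h1 (Pi.single m 1)
    rw [LinearMap.proj_apply, Pi.single_eq_same] at this
    exact one_ne_zero this

end Pool.Agent.H25Y
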