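import Pool.Agent.Lib.H76Y.A1
import Pool.Agent.Lib.H76Y.T14
import Pool.Agent.Lib.H76Q.BL1

/-!
# BLO: blocks and ideals, the number of points is not eight
-/

set_option autoImplicit false
set_option linter.unusedSectionVars false
namespace Pool.Agent.H76Y
open Module Matrix Pool.Agent.H53Toric Pool.Agent.H76P
open Pool.Agent.H76T (IsIdeal Fam)
open Pool.Agent.H76Q (IsBlock Comp InP cz ptS dualMap_mul dualMap_zero spl_eq_sum dualMap_inj)

variable {κ : Type*} {K : Type*} [Field K] [CharZero K] [Fintype κ] [DecidableEq κ]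
  {L : Submodule K (Module.End K (κ → K))} [IsAlgClosed K] [Nonempty κ]
  {Y : Submodule ℚ (κ → ℚ)} {P : Module.End ℚ Y}

/-- Each simple ideal acts on one side of a block, if the number of points is not eight. No form is needed. -/
theorem comp_ne8 (hP : IsBlock P) (h : TM L) (h8 : Fintype.card κ ≠ 8) (hY : Yo L = Y) : Comp L P := by
  classical
  subst hY
  have hs : Spans (pt L) := pt_spans h.cmp
  intro m I hF j
  obtain ⟨Pj, hP1, hP2, -, hPS⟩ := exists_proj h.cmp hF j
  -- the two possibilities
  have caseA : Pj.dualMap * P.dualMap = Pj.dualMap → InP P (I j) := by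
    intro h1 f hf hfj k k' hk
    have h2 : P * Pj = Pj := dualMap_inj (by rw [dualMap_mul]; exact h1)
    have h3 : P ⟨f, hf⟩ = ⟨f, hf⟩ := by
      have h4 := congrArg (fun T : Module.End ℚ (Yo L) => T ⟨f, hf⟩) h2
      simp only [Module.End.mul_apply] at h4
      rwa [hP2 ⟨f, hf⟩ hfj] at h4
    have h5 := hk ⟨f, hf⟩
    rwa [h3] at h5
  have caseB : Pj.dualMap * P.dualMap = 0 → InP (1 - P) (I j) := by
    intro h1 f hf hfj k k' hk
    have h2 : P * Pj = 0 := dualMap_inj (by rw [dualMap_mul, dualMap_zero]; exact h1)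
    have h3 : P ⟨f, hf⟩ = 0 := by
      have h4 := congrArg (fun T : Module.End ℚ (Yo L) => T ⟨f, hf⟩) h2
      simp only [Module.End.mul_apply] at h4
      rwa [hP2 ⟨f, hf⟩ hfj] at h4
    have h5 := hk ⟨f, hf⟩
    rwa [LinearMap.sub_apply, Module.End.one_apply, h3, sub_zero] at h5
  rcases hP with ⟨h8', -⟩ | ⟨-, hA, hc⟩ | ⟨-, hS, -, hat⟩
  · exact absurd h8' h8
  · rcases hA.le_or hs hPS with h1 | h1
    · left
      have h2 : P.dualMap = Pj.dualMap := by
        by_contra hne
        exact hc (h.atom_two hF hP1 hP2 hPS hA h1 hne)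
      refine caseA ?_
      rw [h2]
      exact hPS.1
    · right
      exact caseB (by rw [← Spl.comm hs hA.1 hPS]; exact h1)
  · by_cases hj : Atom (pt L) Pj.dualMap
    · rcases hj.le_or hs hS with h1 | h1
      · exact Or.inl (caseA h1)
      · exact Or.inr (caseB h1)
    · left
      refine caseA ?_
      obtain ⟨s, hsm, hsum⟩ := atoms_sum hs
      have h1 := spl_eq_sum hs hPS s hsm hsum (fun q => q * Pj.dualMap = q) fun q _ => Iff.rfl
      calc Pj.dualMap * P.dualMap = (∑ q ∈ s.filter (fun q => q * Pj.dualMap = q), q) * P.dualMap := by rw [← h1]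
        _ = ∑ q ∈ s.filter (fun q => q * Pj.dualMap = q), q := by
            rw [Finset.sum_mul]
            refine Finset.sum_congr rfl fun q hq => ?_
            rw [Finset.mem_filter, hsm] at hq
            refine (hat q hq.1).2 (h.atom_two hF hP1 hP2 hPS hq.1 hq.2 ?_)
            rintro rfl
            exact hj hq.1
        _ = Pj.dualMap := h1.symm

end Pool.Agent.H76Y
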