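import Pool.Agent.Lib.H76Y.SimpleO
import Pool.Agent.Lib.H76Y.A1
import Pool.Agent.Lib.H76Q.BL3

/-!
# FullO: one block and a symmetric form: the component is full
-/

set_option autoImplicit false
set_option linter.unusedSectionVars false
namespace Pool.Agent.H76Y
open Pool.Agent.H76P Pool.Agent.H76V Pool.Agent.H76Q
open Module Matrix Pool.Agent.H53Toric
open Pool.Agent.H76T (IsIdeal Fam)

section nil
variable {κ : Type*} [Fintype κ] [DecidableEq κ] {K : Type*} [Field K]
variable [CharZero K] {L : Submodule K (Module.End K (κ → K))}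
variable [IsAlgClosed K] [Nonempty κ] {m : ℕ} {I : Fin m → Submodule K (Module.End K (κ → K))}

/-- Every minimal ideal contains an element of square zero. -/
theorem CmpN.nil (h : CmpN L) (hF : Fam L I) (i : Fin m) : ∃ u ∈ I i, u ≠ 0 ∧ u * u = 0 := by
  obtain ⟨y, hy, hy2⟩ := h.inv_mem hF i
  have hyL := (hF.ideal i).1 hy
  obtain ⟨X, hX, hXy⟩ : ∃ X ∈ L, y * X ≠ X * y := by
    by_contra hcon
    push Not at hcon
    obtain ⟨c, hc⟩ := h.gen y (fun z hz _ => hcon z hz)
    have h1 : y = 0 := by
      have h2 := h.tr y hyL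
      rw [hc, map_smul, LinearMap.trace_one, smul_eq_mul, mul_eq_zero] at h2
      rcases h2 with h2 | h2
      · rw [hc, h2, zero_smul]
      · exact absurd h2 (by exact_mod_cast (finrank_pos (R := K) (M := κ → K)).ne')
    rw [h1, mul_zero] at hy2
    exact zero_ne_one hy2
  obtain ⟨Z, hZ⟩ : ∃ Z, Z = y * X - X * y := ⟨_, rfl⟩
  have hZ0 : Z ≠ 0 := by rw [hZ]; exact sub_ne_zero.2 hXy
  have hZI : Z ∈ I i := by
    have h1 := (hF.ideal i).2 X hX y hy
    have h2 : Z = -(X * y - y * X) := by rw [hZ]; abel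
    rw [h2]
    exact (I i).neg_mem h1
  have hZy : Z * y = -(y * Z) := by
    rw [hZ, mul_sub, sub_mul, ← mul_assoc, hy2, one_mul, mul_assoc X y y, hy2, mul_one]
    noncomm_ring
  have hW : y * Z - Z * y ∈ I i := (hF.ideal i).2 y hyL Z hZI
  -- the two components
  have key : ∀ ε : K, ε * ε = 1 → ((2 : K) • Z + ε • (y * Z - Z * y)) *
      ((2 : K) • Z + ε • (y * Z - Z * y)) = 0 := by
    intro ε hε
    have e1 : y * Z - Z * y = (2 : K) • (y * Z) := by
      rw [hZy, two_smul]; abel
    have e2 : y * Z * (y * Z) = -(Z * Z) := by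
      calc y * Z * (y * Z) = y * (Z * y) * Z := by noncomm_ring
        _ = -(y * y * Z * Z) := by rw [hZy, mn, nm]; noncomm_ring
        _ = _ := by rw [hy2, one_mul]
    have e3 : Z * (y * Z) = -(y * Z * Z) := by
      rw [← mul_assoc, hZy, nm]
    rw [e1, smul_smul, mul_add, add_mul, add_mul]
    simp only [smul_mul_assoc, mul_smul_comm, smul_smul]
    rw [e2, e3]
    have e4 : ε * 2 * (ε * 2) = 4 := by linear_combination 4 * hε
    rw [e4]
    module
  by_cases h1 : (2 : K) • Z + (1 : K) • (y * Z - Z * y) = 0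
  · refine ⟨(2 : K) • Z + (-1 : K) • (y * Z - Z * y), (I i).add_mem ((I i).smul_mem _ hZI)
      ((I i).smul_mem _ hW), ?_, key (-1) (by ring)⟩
    intro h2
    apply hZ0
    have h3 : (4 : K) • Z = 0 := by
      calc (4 : K) • Z = ((2 : K) • Z + (1 : K) • (y * Z - Z * y)) +
            ((2 : K) • Z + (-1 : K) • (y * Z - Z * y)) := by module
        _ = 0 := by rw [h1, h2, add_zero]
    exact (smul_eq_zero.1 h3).resolve_left (by norm_num)
  · exact ⟨_, (I i).add_mem ((I i).smul_mem _ hZI) ((I i).smul_mem _ hW), h1, key 1 (by ring)⟩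

/-- Every minimal ideal contains three independent elements. -/
theorem CmpN.three (h : CmpN L) (hF : Fam L I) (i : Fin m) : ∃ x : Fin 3 → Module.End K (κ → K),
    (∀ k, x k ∈ I i) ∧ ∀ c : Fin 3 → K, c 0 • x 0 + c 1 • x 1 + c 2 • x 2 = 0 → c = 0 := by
  obtain ⟨u, hu, hu0, hu2⟩ := h.nil hF i
  obtain ⟨X, hX, huX⟩ := h.partner hF hu hu2
  refine ⟨![u, X, u * X - X * u], ?_, ?_⟩
  · intro k
    fin_cases k
    · exact hu
    · exact hX
    · exact (hF.ideal i).2 u ((hF.ideal i).1 hu) X hX
  · intro c hc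
    have hc' : c 0 • u + c 1 • X + c 2 • (u * X - X * u) = 0 := hc
    have h1 : c 1 • u = 0 := by
      calc c 1 • u = u * (c 0 • u + c 1 • X + c 2 • (u * X - X * u)) * u := by
            have e1 : u * (c 0 • u + c 1 • X + c 2 • (u * X - X * u)) * u =
                c 0 • (u * u * u) + c 1 • (u * X * u) + c 2 • (u * u * X * u - u * X * (u * u)) := by
              simp only [mul_add, add_mul, mul_smul_comm, smul_mul_assoc, mul_sub, sub_mul, mul_assoc]
            rw [e1, hu2, huX]
            simp
        _ = 0 := by rw [hc', mul_zero, zero_mul]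
    have c1 : c 1 = 0 := (smul_eq_zero.1 h1).resolve_right hu0
    rw [c1, zero_smul, add_zero] at hc'
    have h2 : c 2 • u = 0 := by
      calc c 2 • u = -(u * (c 0 • u + c 2 • (u * X - X * u))) := by
            have e1 : u * (c 0 • u + c 2 • (u * X - X * u)) =
                c 0 • (u * u) + c 2 • (u * u * X - u * X * u) := by
              simp only [mul_add, mul_smul_comm, mul_sub, mul_assoc]
            rw [e1, hu2, huX]
            simp
        _ = 0 := by rw [hc', mul_zero, neg_zero]
    have c2 : c 2 = 0 := (smul_eq_zero.1 h2).resolve_right hu0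
    rw [c2, zero_smul, add_zero] at hc'
    have c0 : c 0 = 0 := (smul_eq_zero.1 hc').resolve_right hu0
    funext k
    fin_cases k
    · exact c0
    · exact c1
    · exact c2

/-- Two ideals: the dimension is at least six. -/
theorem CmpN.six (h : CmpN L) (hF : Fam L I) {i j : Fin m} (hij : i ≠ j) : 6 ≤ finrank K L := by
  obtain ⟨x, hx, hx0⟩ := h.three hF i
  obtain ⟨y, hy, hy0⟩ := h.three hF j
  let X : (Fin 3 → K) →ₗ[K] Module.End K (κ → K) :=
    { toFun := fun c => c 0 • x 0 + c 1 • x 1 + c 2 • x 2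
      map_add' := fun c d => by simp only [Pi.add_apply]; module
      map_smul' := fun t c => by simp only [Pi.smul_apply, smul_eq_mul, RingHom.id_apply]; module }
  let Y : (Fin 3 → K) →ₗ[K] Module.End K (κ → K) :=
    { toFun := fun c => c 0 • y 0 + c 1 • y 1 + c 2 • y 2
      map_add' := fun c d => by simp only [Pi.add_apply]; module
      map_smul' := fun t c => by simp only [Pi.smul_apply, smul_eq_mul, RingHom.id_apply]; module }
  have hX : ∀ c, X c ∈ I i := fun c =>
    (I i).add_mem ((I i).add_mem ((I i).smul_mem _ (hx 0)) ((I i).smul_mem _ (hx 1))) ((I i).smul_mem _ (hx 2))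
  have hY : ∀ c, Y c ∈ I j := fun c =>
    (I j).add_mem ((I j).add_mem ((I j).smul_mem _ (hy 0)) ((I j).smul_mem _ (hy 1))) ((I j).smul_mem _ (hy 2))
  let T : (Fin 3 → K) × (Fin 3 → K) →ₗ[K] L :=
    (X.coprod Y).codRestrict L fun p => by
      rw [LinearMap.coprod_apply]
      exact L.add_mem ((hF.ideal i).1 (hX _)) ((hF.ideal j).1 (hY _))
  have hT : ∀ p, ((T p : L) : Module.End K (κ → K)) = X p.1 + Y p.2 := fun p => by
    show (X.coprod Y) p = _
    rw [LinearMap.coprod_apply]
  have hinj : Function.Injective T := by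
    rw [injective_iff_map_eq_zero]
    rintro ⟨c, d⟩ hcd
    have h1 : X c + Y d = 0 := by
      rw [← hT (c, d), hcd]
      rfl
    have h2 : X c ∈ I j := by
      rw [eq_neg_of_add_eq_zero_left h1]
      exact (I j).neg_mem (hY d)
    have h3 : X c = 0 := Fam.disj hF hij (hX c) h2
    have h4 : Y d = 0 := by rw [h3, zero_add] at h1; exact h1
    rw [hx0 c h3, hy0 d h4]
    rfl
  have h1 := LinearMap.finrank_le_finrank_of_injective hinj
  rw [Module.finrank_prod, Module.finrank_fin_fun] at h1
  exact h1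

end nil

section so4
variable {κ : Type*} [Fintype κ] [DecidableEq κ] {K : Type*} [Field K] [CharZero K]

/-- The skew operators. -/
noncomputable def skS (J : Matrix κ κ K) : Submodule K (Module.End K (κ → K)) :=
  LinearMap.ker (adjE J + LinearMap.id)

theorem mem_skS {J : Matrix κ κ K} {X : Module.End K (κ → K)} : X ∈ skS J ↔ adjE J X = -X := by
  rw [skS, LinearMap.mem_ker, LinearMap.add_apply, LinearMap.id_apply]
  exact add_eq_zero_iff_eq_neg

/-- In dimension four the skew operators for a symmetric form have dimension at most six. -/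
theorem skS_six {J : Matrix κ κ K} (hJ : Jᵀ = J) (hdet : IsUnit J.det) (h4 : Fintype.card κ = 4) :
    finrank K (skS J) ≤ 6 := by
  classical
  have e : κ ≃ Fin 4 := Fintype.equivFinOfCardEq h4
  let T : Module.End K (κ → K) →ₗ[K] ({p : Fin 4 × Fin 4 // p.1 < p.2} → K) :=
    { toFun := fun X p => (J * (phi (ι := κ) (K := K)).symm X) (e.symm p.1.1) (e.symm p.1.2)
      map_add' := fun X Y => by
        funext p
        rw [map_add, mul_add, Matrix.add_apply, Pi.add_apply]
      map_smul' := fun c X => by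
        funext p
        rw [map_smul, mul_smul_comm, Matrix.smul_apply, Pi.smul_apply]
        rfl }
  have hinj : Function.Injective (T.domRestrict (skS J)) := by
    rw [injective_iff_map_eq_zero]
    rintro ⟨X, hX⟩ h0
    apply Subtype.ext
    show X = 0
    obtain ⟨x, rfl⟩ := (phi (ι := κ) (K := K)).surjective X
    have h1 := (skew_iff hdet x).1 (mem_skS.1 hX)
    have hA : (J * x)ᵀ = -(J * x) := by
      rw [Matrix.transpose_mul, hJ]
      exact eq_neg_of_add_eq_zero_left h1
    have hA' : ∀ a b, (J * x) b a = -(J * x) a b := fun a b => congrFun (congrFun hA a) b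
    have hT : ∀ i j : Fin 4, i < j → (J * x) (e.symm i) (e.symm j) = 0 := by
      intro i j hij
      have h2 := congrFun h0 ⟨(i, j), hij⟩
      have h3 : T (phi x) ⟨(i, j), hij⟩ = 0 := h2
      have h4 : T (phi x) ⟨(i, j), hij⟩ = (J * (phi (ι := κ) (K := K)).symm (phi x)) (e.symm i) (e.symm j) := rfl
      rw [h4, AlgEquiv.symm_apply_apply] at h3
      exact h3
    have hA0 : J * x = 0 := by
      ext a b
      obtain ⟨i, rfl⟩ := e.symm.surjective a
      obtain ⟨j, rfl⟩ := e.symm.surjective b
      rcases lt_trichotomy i j with h2 | h2 | h2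
      · exact hT i j h2
      · subst h2
        have h3 := hA' (e.symm i) (e.symm i)
        exact self_eq_neg.1 h3
      · rw [hA', hT j i h2, neg_zero]
        rfl
    have h5 : x = 0 := by
      calc x = J⁻¹ * (J * x) := by rw [← mul_assoc, Matrix.nonsing_inv_mul _ hdet, one_mul]
        _ = 0 := by rw [hA0, mul_zero]
    rw [h5, map_zero]
  have h1 := LinearMap.finrank_le_finrank_of_injective hinj
  rw [Module.finrank_fintype_fun_eq_card] at h1
  have h2 : Fintype.card {p : Fin 4 × Fin 4 // p.1 < p.2} = 6 := by decide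
  rw [h2] at h1
  exact h1

end so4

variable {κ : Type*} {K : Type*} [Field K] [CharZero K] [Fintype κ] [DecidableEq κ]
  {L : Submodule K (Module.End K (κ → K))} {J : Matrix κ κ K} [IsAlgClosed K] [Nonempty κ]
  {Y : Submodule ℚ (κ → ℚ)}

/-- **One block, symmetric form.** -/
theorem full_of_oneO (h : TM L) (hJ : Jᵀ = J) (hdet : IsUnit J.det) (hsk : ∀ X ∈ L, adjE J X = -X)
    (hY : Yo L = Y) (h1 : IsBlock (1 : Module.End ℚ Y))
    (two : ∀ k : ℕ, 3 ≤ k → Fintype.card κ ≠ 2 ^ k)
    (binom : ∀ k : ℕ, 4 ≤ k → Even k → Fintype.card κ ≠ k.centralBinom)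
    {X : Module.End K (κ → K)} (hX : adjE J X = -X) : X ∈ L := by
  classical
  subst hY
  obtain ⟨m, I, hF⟩ := Pool.Agent.H76T.exists_fam h.cmp.lie h.cmp.irr h.cmp.tr
  rcases Nat.lt_or_ge m 2 with hm | hm
  · interval_cases m
    · have hL : L = ⊥ := by
        rw [← hF.sup]
        exact iSup_of_empty _
      have h2 : ∀ y ∈ L, y * y = 1 → False := by
        intro y hy hy2
        rw [hL, Submodule.mem_bot] at hy
        rw [hy, mul_zero] at hy2
        exact zero_ne_one hy2
      obtain ⟨c, hc⟩ := h.cmp.gen X fun y hy hy2 => (h2 y hy hy2).elim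
      have h3 : adjE J (1 : Module.End K (κ → K)) = 1 := by
        have h4 := adjE_phi J (1 : Matrix κ κ K)
        have h5 : phi (1 : Matrix κ κ K) = 1 := map_one _
        rw [Matrix.transpose_one, mul_one, Matrix.nonsing_inv_mul _ hdet, h5] at h4
        exact h4
      rw [hc, map_smul, h3] at hX
      have h4 : (2 : K) • (c • (1 : Module.End K (κ → K))) = 0 := by
        rw [two_smul]
        nth_rw 1 [hX]
        exact neg_add_cancel _
      rw [hc, (smul_eq_zero.1 h4).resolve_left two_ne_zero]
      exact L.zero_mem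
    · rcases CmpN.simpleO h.cmp hF hJ hdet hsk with h2 | ⟨n, hn, -, hn2, -⟩ | ⟨k, hk, hk2, hk3, -⟩
      · exact h2 X hX
      · exact absurd hn2 (two n hn)
      · exact absurd hk3 (binom k hk hk2)
  · have hs : Spans (pt L) := pt_spans h.cmp
    have hij : (⟨0, by omega⟩ : Fin m) ≠ ⟨1, by omega⟩ := by
      intro e
      exact absurd (congrArg Fin.val e) (by norm_num)
    obtain ⟨i, hi⟩ : ∃ i : Fin m, i = ⟨0, by omega⟩ := ⟨_, rfl⟩
    obtain ⟨j, hj⟩ : ∃ j : Fin m, j = ⟨1, by omega⟩ := ⟨_, rfl⟩
    rw [← hi, ← hj] at hij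
    -- an atom equal to one is impossible
    have caseA : Atom (pt L) (1 : Module.End ℚ (Module.Dual ℚ (Yo L))) → False := by
      intro hA
      obtain ⟨P, hP1, hP2, hP3, hPS⟩ := exists_proj h.cmp hF i
      have g1 : P.dualMap = 1 := by
        rcases hA.2.2 P.dualMap hPS (mul_one _) with h2 | h2
        · exfalso
          obtain ⟨f, hf, hf0, hfi⟩ := h.exists_diag hF i
          have h3 : P = 0 := dualMap_inj (by rw [h2, dualMap_zero])
          have h4 := hP2 ⟨f, hf⟩ hfi
          rw [h3, LinearMap.zero_apply] at h4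
          exact hf0 (congrArg Subtype.val h4).symm
        · exact h2
      have g2 : P = 1 := dualMap_inj (by rw [g1, dualMap_one])
      obtain ⟨f, hf, hf0, hfi⟩ := h.exists_diag hF j
      have h3 := hP3 j (Ne.symm hij) ⟨f, hf⟩ hfi
      rw [g2, Module.End.one_apply] at h3
      exact hf0 (congrArg Subtype.val h3)
    rcases h1 with ⟨h8, hA⟩ | ⟨-, hA, hc⟩ | ⟨h8, hS, -, hat⟩
    · rw [dualMap_one] at hA
      exact (caseA hA).elim
    · rw [dualMap_one] at hA
      exact (caseA hA).elim
    · obtain ⟨s, hsm, hsum⟩ := atoms_sum hs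
      have hcard : Fintype.card κ = 2 ^ s.card := by
        rw [card_prod hs h.pt_inj (s := s) (fun q hq => (hsm q).1 hq) hsum]
        rw [← Finset.prod_const]
        refine Finset.prod_congr rfl fun q hq => ?_
        refine (hat q ((hsm q).1 hq)).1 ?_
        rw [dualMap_one, mul_one]
      obtain ⟨a, d, ha, hd, hV, ha2, hd2, -, -⟩ := h.cmp.dims hF (i := i) (j := j) hij
      rw [Module.finrank_fintype_fun_eq_card] at hV
      have hs3 : s.card < 3 := by
        by_contra hcon
        push Not at hcon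
        exact two _ hcon hcard
      have h4 : 4 ∣ Fintype.card κ := by
        obtain ⟨a', rfl⟩ := ha2
        obtain ⟨d', rfl⟩ := hd2
        exact ⟨a' * d', by rw [hV]; ring⟩
      have hle : Fintype.card κ ≤ 4 := by
        rw [hcard]
        calc 2 ^ s.card ≤ 2 ^ 2 := Nat.pow_le_pow_right (by norm_num) (by omega)
          _ = 4 := by norm_num
      have hpos : 0 < Fintype.card κ := Fintype.card_pos
      have hc4 : Fintype.card κ = 4 := by
        obtain ⟨c, hc⟩ := h4
        omega
      have hLS : L ≤ skS J := fun Z hZ => mem_skS.2 (hsk Z hZ)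
      have h5 : L = skS J := Submodule.eq_of_le_of_finrank_le hLS
        ((skS_six hJ hdet hc4).trans (h.cmp.six hF hij))
      rw [h5]
      exact mem_skS.2 hX

end Pool.Agent.H76Y
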