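import Pool.Agent.Lib.H25Y.FullO

/-!
# OneN: one block, the rank is not a power of two: one ideal (no form is needed)
-/

set_option autoImplicit false
set_option linter.unusedSectionVars false
namespace Pool.Agent.H76Y
open Pool.Agent.H76P Pool.Agent.H76V Pool.Agent.H76Q
open Module Matrix Pool.Agent.H53Toric
open Pool.Agent.H76T (IsIdeal Fam)

variable {κ : Type*} {K : Type*} [Field K] [CharZero K] [Fintype κ] [DecidableEq κ]
  {L : Submodule K (Module.End K (κ → K))} [IsAlgClosed K] [Nonempty κ]
  {Y : Submodule ℚ (κ → ℚ)}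

/-- **One block, and the number of points is not a power of two: there is one ideal.** -/
theorem simple_of_oneN (h : TM L) (hY : Yo L = Y) (h1 : IsBlock (1 : Module.End ℚ Y))
    (two : ∀ k : ℕ, Fintype.card κ ≠ 2 ^ k) :
    ∃ I : Fin 1 → Submodule K (Module.End K (κ → K)), Fam L I := by
  classical
  subst hY
  obtain ⟨m, I, hF⟩ := Pool.Agent.H76T.exists_fam h.cmp.lie h.cmp.irr h.cmp.tr
  rcases Nat.lt_or_ge m 2 with hm | hm
  · interval_cases m
    · exfalso
      have hL : L = ⊥ := by
        rw [← hF.sup]
        exact iSup_of_empty _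
      have h2 : ∀ y ∈ L, y * y = 1 → False := by
        intro y hy hy2
        rw [hL, Submodule.mem_bot] at hy
        rw [hy, mul_zero] at hy2
        exact zero_ne_one hy2
      have h3 : Subsingleton κ := by
        refine ⟨fun a b => ?_⟩
        by_contra hab
        obtain ⟨f, hf, hfab⟩ := h.sep a b hab
        obtain ⟨c', hc'⟩ := h.cmp.gen (dq f) fun y hy hy2 => (h2 y hy hy2).elim
        apply hfab
        have h4 := congrFun (congrArg (fun T : Module.End K (κ → K) => T fun _ => 1) hc') a
        have h5 := congrFun (congrArg (fun T : Module.End K (κ → K) => T fun _ => 1) hc') b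
        unfold dq at h4 h5
        simp only [dg_apply, LinearMap.smul_apply, Module.End.one_apply, Pi.smul_apply, smul_eq_mul, mul_one] at h4 h5
        have h6 : ((f a : ℚ) : K) = ((f b : ℚ) : K) := by rw [h4, h5]
        exact_mod_cast h6
      have h4 := two 0
      rw [pow_zero] at h4
      have h5 : Fintype.card κ ≤ 1 := Fintype.card_le_one_iff_subsingleton.2 h3
      have h6 : 0 < Fintype.card κ := Fintype.card_pos
      omega
    · exact ⟨I, hF⟩
  · exfalso
    have hs : Spans (pt L) := pt_spans h.cmp
    have hij : (⟨0, by omega⟩ : Fin m) ≠ ⟨1, by omega⟩ := by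
      intro e
      exact absurd (congrArg Fin.val e) (by norm_num)
    obtain ⟨i, hi⟩ : ∃ i : Fin m, i = ⟨0, by omega⟩ := ⟨_, rfl⟩
    obtain ⟨j, hj⟩ : ∃ j : Fin m, j = ⟨1, by omega⟩ := ⟨_, rfl⟩
    rw [← hi, ← hj] at hij
    -- an atom equal to one is impossible
    have caseA : Atom (pt L) (1 : Module.End ℚ (Module.Dual ℚ (Yo L))) → False := by
      intro hA
      obtain ⟨P, hP1, hP2, hP3, hPS⟩ := exists_proj h.cmp hF i
      have g1 : P.dualMap = 1 := by
        rcases hA.2.2 P.dualMap hPS (mul_one _) with h2 | h2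
        · exfalso
          obtain ⟨f, hf, hf0, hfi⟩ := h.exists_diag hF i
          have h3 : P = 0 := dualMap_inj (by rw [h2, dualMap_zero])
          have h4 := hP2 ⟨f, hf⟩ hfi
          rw [h3, LinearMap.zero_apply] at h4
          exact hf0 (congrArg Subtype.val h4).symm
        · exact h2
      have g2 : P = 1 := dualMap_inj (by rw [g1, dualMap_one])
      obtain ⟨f, hf, hf0, hfi⟩ := h.exists_diag hF j
      have h3 := hP3 j (Ne.symm hij) ⟨f, hf⟩ hfi
      rw [g2, Module.End.one_apply] at h3
      exact hf0 (congrArg Subtype.val h3)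
    rcases h1 with ⟨h8, hA⟩ | ⟨-, hA, hc⟩ | ⟨h8, hS, -, hat⟩
    · rw [dualMap_one] at hA
      exact caseA hA
    · rw [dualMap_one] at hA
      exact caseA hA
    · obtain ⟨s, hsm, hsum⟩ := atoms_sum hs
      have hcard : Fintype.card κ = 2 ^ s.card := by
        rw [card_prod hs h.pt_inj (s := s) (fun q hq => (hsm q).1 hq) hsum]
        rw [← Finset.prod_const]
        refine Finset.prod_congr rfl fun q hq => ?_
        refine (hat q ((hsm q).1 hq)).1 ?_
        rw [dualMap_one, mul_one]
      exact two _ hcard

end Pool.Agent.H76Y
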