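import Pool.Agent.Lib.H25Y.Sym

/-!
# Pair: two representations with the same highest weight are isomorphic (graph argument)
-/

set_option autoImplicit false
set_option linter.unusedSectionVars false
namespace Pool.Agent.H25Y
open Module Pool.Agent.H53Toric Pool.Agent.H76P

variable {κ κ' : Type*} {K : Type*} [Field K] [CharZero K] [Fintype κ] [DecidableEq κ] [Fintype κ'] [DecidableEq κ']
  {𝓛 : Submodule K (Module.End K (κ → K) × Module.End K (κ' → K))}

/-- Functions of the differences of a diagonal pair act on a Lie algebra of pairs. -/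
theorem fun_mem_pair
    (hL : ∀ p ∈ 𝓛, ∀ q ∈ 𝓛, (p.1 * q.1 - q.1 * p.1, p.2 * q.2 - q.2 * p.2) ∈ 𝓛)
    {g : κ → K} {g' : κ' → K} (hg : (dg g, dg g') ∈ 𝓛) (h : K → K)
    {X : Module.End K (κ → K)} {X' : Module.End K (κ' → K)} (hX : (X, X') ∈ 𝓛) :
    ∃ Y Y', (Y, Y') ∈ 𝓛 ∧ (∀ a b, Y (Pi.single b 1) a = h (g a - g b) * X (Pi.single b 1) a) ∧
      ∀ a b, Y' (Pi.single b 1) a = h (g' a - g' b) * X' (Pi.single b 1) a := by
  classical
  have key : ∀ p : Polynomial K, ∃ Y Y', (Y, Y') ∈ 𝓛 ∧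
      (∀ a b, Y (Pi.single b 1) a = p.eval (g a - g b) * X (Pi.single b 1) a) ∧
      ∀ a b, Y' (Pi.single b 1) a = p.eval (g' a - g' b) * X' (Pi.single b 1) a := by
    intro p
    induction p using Polynomial.induction_on' with
    | add p q hp hq =>
      obtain ⟨Y, Y', hY, h1, h1'⟩ := hp
      obtain ⟨Z, Z', hZ, h2, h2'⟩ := hq
      refine ⟨Y + Z, Y' + Z', 𝓛.add_mem hY hZ, fun a b => ?_, fun a b => ?_⟩
      · rw [LinearMap.add_apply, Pi.add_apply, h1, h2, Polynomial.eval_add]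
        ring
      · rw [LinearMap.add_apply, Pi.add_apply, h1', h2', Polynomial.eval_add]
        ring
    | monomial n c =>
      have : ∀ n : ℕ, ∃ Y Y', (Y, Y') ∈ 𝓛 ∧
          (∀ a b, Y (Pi.single b 1) a = (g a - g b) ^ n * X (Pi.single b 1) a) ∧
          ∀ a b, Y' (Pi.single b 1) a = (g' a - g' b) ^ n * X' (Pi.single b 1) a := by
        intro n
        induction n with
        | zero => exact ⟨X, X', hX, fun a b => by rw [pow_zero, one_mul], fun a b => by rw [pow_zero, one_mul]⟩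
        | succ n ih =>
          obtain ⟨Y, Y', hY, h1, h1'⟩ := ih
          refine ⟨dg g * Y - Y * dg g, dg g' * Y' - Y' * dg g', hL _ hg _ hY, fun a b => ?_, fun a b => ?_⟩
          · rw [LinearMap.sub_apply, Pi.sub_apply, dg_entry_left, Module.End.mul_apply, dg_single,
              map_smul, Pi.smul_apply, h1, smul_eq_mul]
            ring
          · rw [LinearMap.sub_apply, Pi.sub_apply, dg_entry_left, Module.End.mul_apply, dg_single,
              map_smul, Pi.smul_apply, h1', smul_eq_mul]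
            ring
      obtain ⟨Y, Y', hY, h1, h1'⟩ := this n
      refine ⟨c • Y, c • Y', 𝓛.smul_mem c hY, fun a b => ?_, fun a b => ?_⟩
      · rw [LinearMap.smul_apply, Pi.smul_apply, h1, Polynomial.eval_monomial, smul_eq_mul]
        ring
      · rw [LinearMap.smul_apply, Pi.smul_apply, h1', Polynomial.eval_monomial, smul_eq_mul]
        ring
  obtain ⟨p, hp⟩ := exists_poly (Finset.univ.image (fun q : κ × κ => g q.1 - g q.2) ∪
    Finset.univ.image (fun q : κ' × κ' => g' q.1 - g' q.2)) h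
  obtain ⟨Y, Y', hY, h1, h1'⟩ := key p
  refine ⟨Y, Y', hY, fun a b => ?_, fun a b => ?_⟩
  · rw [h1, hp _ (Finset.mem_union_left _ (Finset.mem_image.2 ⟨(a, b), Finset.mem_univ _, rfl⟩))]
  · rw [h1', hp _ (Finset.mem_union_right _ (Finset.mem_image.2 ⟨(a, b), Finset.mem_univ _, rfl⟩))]

/-- A subspace of pairs which is stable, and which contains no `(0, w)` with `w` outside a proper subset, is the
graph of an isomorphism. -/
theorem iso_of_graph {V V' : Type*} [AddCommGroup V] [Module K V] [AddCommGroup V'] [Module K V']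
    {𝓛 : Set (Module.End K V × Module.End K V')}
    (hirr : ∀ W : Submodule K V, (∀ p ∈ 𝓛, ∀ w ∈ W, p.1 w ∈ W) → W = ⊥ ∨ W = ⊤)
    (hirr' : ∀ W : Submodule K V', (∀ p ∈ 𝓛, ∀ w ∈ W, p.2 w ∈ W) → W = ⊥ ∨ W = ⊤)
    (U : Submodule K (V × V')) (hU : ∀ p ∈ 𝓛, ∀ u ∈ U, (p.1 u.1, p.2 u.2) ∈ U)
    {e' : V'} (he : (0, e') ∉ U) {x : V × V'} (hx : x ∈ U) (hx1 : x.1 ≠ 0) (hx2 : x.2 ≠ 0) :
    ∃ T : V →ₗ[K] V', Function.Bijective T ∧ T x.1 = x.2 ∧ ∀ p ∈ 𝓛, ∀ v, T (p.1 v) = p.2 (T v) := by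
  have h0 : ∀ w, ((0 : V), w) ∈ U → w = 0 := by
    let N : Submodule K V' :=
      { carrier := {w | ((0 : V), w) ∈ U}
        add_mem' := by
          intro a b ha hb
          have := U.add_mem ha hb
          rwa [Prod.mk_add_mk, add_zero] at this
        zero_mem' := U.zero_mem
        smul_mem' := by
          intro c a ha
          have := U.smul_mem c ha
          rwa [Prod.smul_mk, smul_zero] at this }
    have hst : ∀ p ∈ 𝓛, ∀ w ∈ N, p.2 w ∈ N := by
      intro p hp w hw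
      have h1 := hU p hp _ hw
      rw [map_zero] at h1
      exact h1
    intro w hw
    rcases hirr' N hst with h | h
    · have : w ∈ N := hw
      rwa [h, Submodule.mem_bot] at this
    · exfalso
      apply he
      have : e' ∈ N := by rw [h]; exact Submodule.mem_top
      exact this
  have h1 : ∀ v : V, ∃ w : V', (v, w) ∈ U := by
    have hst : ∀ p ∈ 𝓛, ∀ w ∈ U.map (LinearMap.fst K V V'), p.1 w ∈ U.map (LinearMap.fst K V V') := by
      intro p hp w hw
      obtain ⟨u, hu, rfl⟩ := hw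
      exact ⟨_, hU p hp u hu, rfl⟩
    rcases hirr _ hst with h | h
    · exfalso
      apply hx1
      have : x.1 ∈ U.map (LinearMap.fst K V V') := Submodule.mem_map_of_mem hx
      rw [h, Submodule.mem_bot] at this
      exact this
    · intro v
      have : v ∈ U.map (LinearMap.fst K V V') := by rw [h]; exact Submodule.mem_top
      obtain ⟨u, hu, rfl⟩ := this
      exact ⟨u.2, hu⟩
  choose θ hθ using h1
  have huniq : ∀ v w, (v, w) ∈ U → w = θ v := by
    intro v w h
    have h2 := U.sub_mem h (hθ v)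
    rw [Prod.mk_sub_mk, sub_self] at h2
    exact sub_eq_zero.1 (h0 _ h2)
  let T : V →ₗ[K] V' :=
    { toFun := θ
      map_add' := by
        intro v w
        refine (huniq _ _ ?_).symm
        have := U.add_mem (hθ v) (hθ w)
        rwa [Prod.mk_add_mk] at this
      map_smul' := by
        intro c v
        refine (huniq _ _ ?_).symm
        have := U.smul_mem c (hθ v)
        rwa [Prod.smul_mk] at this }
  have hT : ∀ p ∈ 𝓛, ∀ v, T (p.1 v) = p.2 (T v) := fun p hp v => (huniq _ _ (hU p hp _ (hθ v))).symm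
  have hTx : T x.1 = x.2 := (huniq _ _ hx).symm
  refine ⟨T, ⟨?_, ?_⟩, hTx, hT⟩
  · rcases hirr (LinearMap.ker T) (fun p hp w hw => by
      rw [LinearMap.mem_ker] at hw ⊢
      rw [hT p hp, hw, map_zero]) with h | h
    · exact LinearMap.ker_eq_bot.1 h
    · exfalso
      apply hx2
      have : x.1 ∈ LinearMap.ker T := by rw [h]; exact Submodule.mem_top
      rw [← hTx]
      exact LinearMap.mem_ker.1 this
  · rcases hirr' (LinearMap.range T) (fun p hp w hw => by
      obtain ⟨v, rfl⟩ := hw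
      exact ⟨_, hT p hp v⟩) with h | h
    · exfalso
      apply hx2
      have : T x.1 ∈ LinearMap.range T := ⟨_, rfl⟩
      rw [h, Submodule.mem_bot] at this
      rw [← hTx]
      exact this
    · exact LinearMap.range_eq_top.1 h

theorem pair_sum {ι : Type*} [Fintype ι] [DecidableEq ι] (X : Module.End K (ι → K)) (v : ι → K) (a : ι) :
    X v a = ∑ b, v b * X (Pi.single b 1) a := by
  have h : v = ∑ b, v b • (Pi.single b (1 : K) : ι → K) := by
    funext c
    simp [Finset.sum_apply, Pi.single_apply]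
  conv_lhs => rw [h]
  rw [map_sum, Finset.sum_apply]
  refine Finset.sum_congr rfl fun b _ => ?_
  rw [map_smul, Pi.smul_apply, smul_eq_mul]

/-- The three parts of an operator with respect to an injective rational function. -/
theorem pair_part {ι : Type*} [Fintype ι] [DecidableEq ι] {f : ι → ℚ} (hinj : Function.Injective f)
    {M : ι} (hM : ∀ a, f a ≤ f M) (h₁ h₂ h₃ : K → K)
    (hh₁ : ∀ q : ℚ, h₁ q = if q < 0 then 1 else 0) (hh₂ : ∀ q : ℚ, h₂ q = if q = 0 then 1 else 0)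
    (hh₃ : ∀ q : ℚ, h₃ q = if 0 < q then 1 else 0) {Z Z₁ Z₂ Z₃ : Module.End K (ι → K)}
    (e1 : ∀ a b, Z₁ (Pi.single b 1) a = h₁ ((f a : K) - (f b : K)) * Z (Pi.single b 1) a)
    (e2 : ∀ a b, Z₂ (Pi.single b 1) a = h₂ ((f a : K) - (f b : K)) * Z (Pi.single b 1) a)
    (e3 : ∀ a b, Z₃ (Pi.single b 1) a = h₃ ((f a : K) - (f b : K)) * Z (Pi.single b 1) a) :
    Z₂ = dg (fun a => Z (Pi.single a 1) a) ∧ Z = Z₁ + Z₂ + Z₃ ∧ (∀ v, Z₁ v M = 0) ∧
        Z₃ (Pi.single M 1) = 0 := by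
  have hcast : ∀ x y : ℚ, (x : K) - (y : K) = ((x - y : ℚ) : K) := by
    intro x y
    push_cast
    rfl
  have e1' : ∀ a b, Z₁ (Pi.single b 1) a = if f a < f b then Z (Pi.single b 1) a else 0 := by
    intro a b
    rw [e1, hcast, hh₁]
    by_cases h : f a < f b
    · rw [if_pos h, if_pos (by linarith), one_mul]
    · rw [if_neg h, if_neg (by linarith), zero_mul]
  have e2' : ∀ a b, Z₂ (Pi.single b 1) a = if a = b then Z (Pi.single b 1) a else 0 := by
    intro a b
    rw [e2, hcast, hh₂]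
    by_cases h : a = b
    · rw [if_pos h, h, sub_self, if_pos rfl, one_mul]
    · rw [if_neg h, if_neg (sub_ne_zero.2 fun h' => h (hinj h')), zero_mul]
  have e3' : ∀ a b, Z₃ (Pi.single b 1) a = if f b < f a then Z (Pi.single b 1) a else 0 := by
    intro a b
    rw [e3, hcast, hh₃]
    by_cases h : f b < f a
    · rw [if_pos h, if_pos (by linarith), one_mul]
    · rw [if_neg h, if_neg (by linarith), zero_mul]
  refine ⟨?_, ?_, ?_, ?_⟩
  · refine ext_entry fun a b => ?_
    rw [e2', dg_apply]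
    by_cases hab : a = b
    · rw [if_pos hab, hab, Pi.single_eq_same, mul_one]
    · rw [if_neg hab, Pi.single_eq_of_ne hab, mul_zero]
  · refine ext_entry fun a b => ?_
    rw [LinearMap.add_apply, LinearMap.add_apply, Pi.add_apply, Pi.add_apply, e1', e2', e3']
    rcases lt_trichotomy (f a) (f b) with h | h | h
    · have hab : a ≠ b := fun h' => by rw [h'] at h; exact lt_irrefl _ h
      rw [if_pos h, if_neg hab, if_neg (not_lt.2 h.le), add_zero, add_zero]
    · have hab : a = b := hinj h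
      rw [if_neg (by rw [h]; exact lt_irrefl _), if_pos hab, if_neg (by rw [h]; exact lt_irrefl _),
        zero_add, add_zero]
    · have hab : a ≠ b := fun h' => by rw [h'] at h; exact lt_irrefl _ h
      rw [if_neg (not_lt.2 h.le), if_neg hab, if_pos h, zero_add, zero_add]
  · intro v
    rw [pair_sum]
    refine Finset.sum_eq_zero fun b _ => ?_
    rw [e1', if_neg (not_lt.2 (hM b)), mul_zero]
  · funext a
    rw [e3', if_neg (not_lt.2 (hM a))]
    rfl

/-- **Intertwiner.** A Lie algebra of pairs of operators with irreducible projections, a generic rational diagonal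
pair, the same value of all diagonal pairs at the two maxima: the two representations are isomorphic. -/
theorem exists_intertwiner
    (hL : ∀ p ∈ 𝓛, ∀ q ∈ 𝓛, (p.1 * q.1 - q.1 * p.1, p.2 * q.2 - q.2 * p.2) ∈ 𝓛)
    (hirr : ∀ W : Submodule K (κ → K), (∀ p ∈ 𝓛, ∀ w ∈ W, p.1 w ∈ W) → W = ⊥ ∨ W = ⊤)
    (hirr' : ∀ W : Submodule K (κ' → K), (∀ p ∈ 𝓛, ∀ w ∈ W, p.2 w ∈ W) → W = ⊥ ∨ W = ⊤)
    {f : κ → ℚ} {f' : κ' → ℚ} (hff : ((dq f : Module.End K (κ → K)), (dq f' : Module.End K (κ' → K))) ∈ 𝓛)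
    (hinj : Function.Injective f) (hinj' : Function.Injective f')
    {M : κ} {M' : κ'} (hM : ∀ a, f a ≤ f M) (hM' : ∀ a, f' a ≤ f' M')
    (hmax : ∀ (g : κ → K) (g' : κ' → K), (dg g, dg g') ∈ 𝓛 → g M = g' M') :
    ∃ T : (κ → K) →ₗ[K] (κ' → K), Function.Bijective T ∧ T (Pi.single M 1) = Pi.single M' 1 ∧
      ∀ p ∈ 𝓛, ∀ v, T (p.1 v) = p.2 (T v) := by
  classical
  let h₁ : K → K := fun c => if ∃ q : ℚ, q < 0 ∧ (q : K) = c then 1 else 0
  let h₂ : K → K := fun c => if c = 0 then 1 else 0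
  let h₃ : K → K := fun c => if ∃ q : ℚ, 0 < q ∧ (q : K) = c then 1 else 0
  have hh₁ : ∀ q : ℚ, h₁ q = if q < 0 then 1 else 0 := by
    intro q
    show (if ∃ q' : ℚ, q' < 0 ∧ (q' : K) = (q : K) then (1 : K) else 0) = _
    by_cases h : q < 0
    · rw [if_pos h, if_pos ⟨q, h, rfl⟩]
    · rw [if_neg h, if_neg]
      rintro ⟨q', h1, h2⟩
      rw [Rat.cast_injective h2] at h1
      exact h h1
  have hh₂ : ∀ q : ℚ, h₂ q = if q = 0 then 1 else 0 := by
    intro q
    show (if (q : K) = 0 then (1 : K) else 0) = _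
    simp only [Rat.cast_eq_zero]
  have hh₃ : ∀ q : ℚ, h₃ q = if 0 < q then 1 else 0 := by
    intro q
    show (if ∃ q' : ℚ, 0 < q' ∧ (q' : K) = (q : K) then (1 : K) else 0) = _
    by_cases h : 0 < q
    · rw [if_pos h, if_pos ⟨q, h, rfl⟩]
    · rw [if_neg h, if_neg]
      rintro ⟨q', h1, h2⟩
      rw [Rat.cast_injective h2] at h1
      exact h h1
  have split : ∀ Z Z', (Z, Z') ∈ 𝓛 → ∃ Z₁ Z₁', (Z₁, Z₁') ∈ 𝓛 ∧ ∃ (g : κ → K) (g' : κ' → K),
      (dg g, dg g') ∈ 𝓛 ∧ ∃ Z₃ Z₃', Z = Z₁ + dg g + Z₃ ∧ Z' = Z₁' + dg g' + Z₃' ∧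
      (∀ v, Z₁ v M = 0) ∧ (∀ v, Z₁' v M' = 0) ∧ Z₃ (Pi.single M 1) = 0 ∧ Z₃' (Pi.single M' 1) = 0 := by
    intro Z Z' hZ
    obtain ⟨Z₁, Z₁', h1, e1, e1'⟩ := fun_mem_pair hL hff h₁ hZ
    obtain ⟨Z₂, Z₂', h2, e2, e2'⟩ := fun_mem_pair hL hff h₂ hZ
    obtain ⟨Z₃, Z₃', h3, e3, e3'⟩ := fun_mem_pair hL hff h₃ hZ
    obtain ⟨p1, p2, p3, p4⟩ := pair_part hinj hM h₁ h₂ h₃ hh₁ hh₂ hh₃ e1 e2 e3
    obtain ⟨q1, q2, q3, q4⟩ := pair_part hinj' hM' h₁ h₂ h₃ hh₁ hh₂ hh₃ e1' e2' e3'
    exact ⟨Z₁, Z₁', h1, _, _, by rw [← p1, ← q1]; exact h2, Z₃, Z₃', by rw [← p1]; exact p2,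
      by rw [← q1]; exact q2, p3, q3, p4, q4⟩
  -- the submodule
  let act : Module.End K (κ → K) × Module.End K (κ' → K) → (κ → K) × (κ' → K) →
      (κ → K) × (κ' → K) := fun p u => (p.1 u.1, p.2 u.2)
  have act_add : ∀ p u u', act p (u + u') = act p u + act p u' := fun p u u' =>
    Prod.ext (map_add p.1 _ _) (map_add p.2 _ _)
  have act_smul : ∀ p (c : K) u, act p (c • u) = c • act p u := fun p c u =>
    Prod.ext (map_smul p.1 _ _) (map_smul p.2 _ _)
  have act_zero : ∀ p, act p 0 = 0 := fun p => Prod.ext (map_zero p.1) (map_zero p.2)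
  have act_comm : ∀ p q u, act p (act q u) = act q (act p u) +
      act (p.1 * q.1 - q.1 * p.1, p.2 * q.2 - q.2 * p.2) u := by
    intro p q u
    refine Prod.ext ?_ ?_
    · show p.1 (q.1 u.1) = q.1 (p.1 u.1) + (p.1 * q.1 - q.1 * p.1) u.1
      rw [LinearMap.sub_apply, Module.End.mul_apply, Module.End.mul_apply]
      abel
    · show p.2 (q.2 u.2) = q.2 (p.2 u.2) + (p.2 * q.2 - q.2 * p.2) u.2
      rw [LinearMap.sub_apply, Module.End.mul_apply, Module.End.mul_apply]
      abel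
  let x : (κ → K) × (κ' → K) := (Pi.single M 1, Pi.single M' 1)
  let W : ℕ → Set ((κ → K) × (κ' → K)) := fun n => Nat.rec {x}
    (fun _ S => {u' | ∃ p ∈ 𝓛, (∀ v, p.1 v M = 0) ∧ (∀ v, p.2 v M' = 0) ∧ ∃ u ∈ S, u' = act p u}) n
  let U : Submodule K ((κ → K) × (κ' → K)) := Submodule.span K (⋃ n, W n)
  have hWU : ∀ n, ∀ u ∈ W n, u ∈ U := fun n u hu => Submodule.subset_span (Set.mem_iUnion.2 ⟨n, hu⟩)
  have hxU : x ∈ U := hWU 0 x rfl
  have hlow : ∀ p ∈ 𝓛, (∀ v, p.1 v M = 0) → (∀ v, p.2 v M' = 0) → ∀ u ∈ U, act p u ∈ U := by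
    intro p hp hp1 hp2 u hu
    induction hu using Submodule.span_induction with
    | mem u hu =>
      obtain ⟨n, hn⟩ := Set.mem_iUnion.1 hu
      exact hWU (n + 1) _ ⟨p, hp, hp1, hp2, u, hn, rfl⟩
    | zero => rw [act_zero]; exact U.zero_mem
    | add u u' _ _ h h' => rw [act_add]; exact U.add_mem h h'
    | smul c u _ h => rw [act_smul]; exact U.smul_mem c h
  have hbase : ∀ p ∈ 𝓛, act p x ∈ U := by
    rintro ⟨Z, Z'⟩ hZ
    obtain ⟨Z₁, Z₁', h1, g, g', hg, Z₃, Z₃', he, he', a1, a1', a3, a3'⟩ := split Z Z' hZ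
    have e1 : act (Z, Z') x = act (Z₁, Z₁') x + g M • x := by
      refine Prod.ext ?_ ?_
      · show Z (Pi.single M 1) = Z₁ (Pi.single M 1) + g M • Pi.single M 1
        rw [he, LinearMap.add_apply, LinearMap.add_apply, a3, dg_single, add_zero]
      · show Z' (Pi.single M' 1) = Z₁' (Pi.single M' 1) + g M • Pi.single M' 1
        rw [he', LinearMap.add_apply, LinearMap.add_apply, a3', dg_single, add_zero, hmax g g' hg]
    rw [e1]
    exact U.add_mem (hlow _ h1 a1 a1' x hxU) (U.smul_mem _ hxU)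
  have hW : ∀ n, ∀ u ∈ W n, ∀ p ∈ 𝓛, act p u ∈ U := by
    intro n
    induction n with
    | zero =>
      rintro u rfl
      exact hbase
    | succ n ih =>
      rintro _ ⟨q, hq, hq1, hq2, u, hu, rfl⟩ p hp
      rw [act_comm]
      exact U.add_mem (hlow q hq hq1 hq2 _ (ih u hu p hp)) (ih u hu _ (hL p hp q hq))
  have hU : ∀ p ∈ 𝓛, ∀ u ∈ U, act p u ∈ U := by
    intro p hp u hu
    induction hu using Submodule.span_induction with
    | mem u hu =>
      obtain ⟨n, hn⟩ := Set.mem_iUnion.1 hu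
      exact hW n u hn p hp
    | zero => rw [act_zero]; exact U.zero_mem
    | add u u' _ _ h h' => rw [act_add]; exact U.add_mem h h'
    | smul c u _ h => rw [act_smul]; exact U.smul_mem c h
  have hB : ∀ u ∈ U, u.1 M = u.2 M' := by
    intro u hu
    induction hu using Submodule.span_induction with
    | mem u hu =>
      obtain ⟨n, hn⟩ := Set.mem_iUnion.1 hu
      cases n with
      | zero =>
        have : u = x := hn
        rw [this]
        show (Pi.single M (1 : K) : κ → K) M = (Pi.single M' (1 : K) : κ' → K) M'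
        rw [Pi.single_eq_same, Pi.single_eq_same]
      | succ n =>
        obtain ⟨p, hp, hp1, hp2, u', hu', rfl⟩ := hn
        show p.1 u'.1 M = p.2 u'.2 M'
        rw [hp1, hp2]
    | zero => simp
    | add u u' _ _ h h' =>
      rw [Prod.fst_add, Prod.snd_add, Pi.add_apply, Pi.add_apply, h, h']
    | smul c u _ h =>
      rw [Prod.smul_fst, Prod.smul_snd, Pi.smul_apply, Pi.smul_apply, h]
  have hx1 : (Pi.single M (1 : K) : κ → K) ≠ 0 := by
    intro h
    have := congrFun h M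
    rw [Pi.single_eq_same] at this
    exact one_ne_zero this
  have hx2 : (Pi.single M' (1 : K) : κ' → K) ≠ 0 := by
    intro h
    have := congrFun h M'
    rw [Pi.single_eq_same] at this
    exact one_ne_zero this
  obtain ⟨T, hT1, hT2, hT3⟩ := iso_of_graph (𝓛 := (𝓛 : Set _)) hirr hirr' U hU (e' := Pi.single M' 1)
    (fun h => by
      have h1 := hB _ h
      have h2 : (0 : K) = (Pi.single M' (1 : K) : κ' → K) M' := h1
      rw [Pi.single_eq_same] at h2
      exact zero_ne_one h2) hxU hx1 hx2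
  exact ⟨T, hT1, hT2, hT3⟩

end Pool.Agent.H25Y
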