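import Pool.Agent.Lib.H76Y.Y0
import Pool.Agent.Lib.H25Y.Sym

/-!
# A component whose configuration is symmetric has an invariant form
-/

set_option autoImplicit false
set_option linter.unusedSectionVars false
namespace Pool.Agent.H76Y
open Module Matrix Pool.Agent.H53Toric Pool.Agent.H76P

variable {κ : Type*} {K : Type*} [Field K] [CharZero K] [Fintype κ] [DecidableEq κ]
  [IsAlgClosed K] [Nonempty κ] {L : Submodule K (Module.End K (κ → K))}

/-- If the set of the weights is symmetric, there is a nonzero invariant bilinear form. -/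
theorem TM.not_ns (h : TM L) (hsym : ∀ k, ∃ k', ∀ f ∈ Yo L, f k' = -f k) : ¬ NsL L := by
  intro hns
  obtain ⟨b, hb0, hb⟩ := H25Y.exists_inv_form h.cmp.lie h.cmp.irr h.cmp.tr h.diag h.sep hsym
  exact hb0 (hns b hb)

end Pool.Agent.H76Y
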